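import Mathlib

namespace Pool.Agent.TH352.SR

open Finset

/-- A family of placements of `F` in `W`. -/
structure Fam {V0 W ι : Type*} (F : SimpleGraph V0) (P : ι → V0 → W) : Prop where
  inj : ∀ s, Function.Injective (P s)
  disj : ∀ s s' i j i' j', F.Adj i j → F.Adj i' j' → s(P s i, P s j) = s(P s' i', P s' j') → s = s'
  uniq : ∀ f : V0 → W, Function.Injective f →
    (∀ v w, F.Adj v w → ∃ s i j, F.Adj i j ∧ P s i = f v ∧ P s j = f w) →
    ∃ s, ∃ σ : Equiv.Perm V0, (∀ v w, F.Adj v w ↔ F.Adj (σ v) (σ w)) ∧ ∀ v, f v = P s (σ v)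

variable {V0 W ι : Type*} {F : SimpleGraph V0} {P : ι → V0 → W}

/-- The union of the selected placements. -/
def unionG (h : Fam F P) (Sel : Finset ι) : SimpleGraph W where
  Adj a b := ∃ s ∈ Sel, ∃ i j, F.Adj i j ∧ P s i = a ∧ P s j = b
  symm := ⟨fun a b ⟨s, hs, i, j, hij, hi, hj⟩ => ⟨s, hs, j, i, hij.symm, hj, hi⟩⟩
  loopless := ⟨fun a ⟨s, _, i, j, hij, hi, hj⟩ => hij.ne (h.inj s (hi.trans hj.symm))⟩

/-- The copy given by a selected placement. -/
def cp (h : Fam F P) (Sel : Finset ι) (s : {x // x ∈ Sel}) : SimpleGraph.Copy F (unionG h Sel) :=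
  ⟨⟨P s.1, fun {i j} hij => ⟨s.1, s.2, i, j, hij, rfl, rfl⟩⟩, h.inj s.1⟩

lemma cp_adj (h : Fam F P) (Sel : Finset ι) (s : {x // x ∈ Sel}) (a b : W) :
    (cp h Sel s).toSubgraph.Adj a b ↔ ∃ i j, F.Adj i j ∧ P s.1 i = a ∧ P s.1 j = b := by
  constructor
  · rintro ⟨i, j, hij, hi, hj⟩
    exact ⟨i, j, hij, hi, hj⟩
  · rintro ⟨i, j, hij, hi, hj⟩
    exact ⟨i, j, hij, hi, hj⟩

theorem assemble (h : Fam F P) (Sel : Finset ι) (i0 j0 : V0) (hij0 : F.Adj i0 j0) :
    ∃ 𝓕 : Finset (unionG h Sel).Subgraph, 𝓕.card = Sel.card ∧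
      (∀ S ∈ 𝓕, ∀ S' ∈ 𝓕, S ≠ S' → Disjoint S.edgeSet S'.edgeSet) ∧
      (⋃ S ∈ 𝓕, S.edgeSet) = (unionG h Sel).edgeSet ∧
      ∀ S : (unionG h Sel).Subgraph, S ∈ 𝓕 ↔ Nonempty (F ≃g S.coe) := by
  classical
  have key : ∀ s s' : {x // x ∈ Sel}, ∀ e, e ∈ (cp h Sel s).toSubgraph.edgeSet →
      e ∈ (cp h Sel s').toSubgraph.edgeSet → s = s' := by
    intro s s' e
    induction e using Sym2.ind with
    | _ a b =>
      intro h1 h2
      rw [SimpleGraph.Subgraph.mem_edgeSet, cp_adj] at h1 h2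
      obtain ⟨i, j, hij, hi, hj⟩ := h1
      obtain ⟨i', j', hij', hi', hj'⟩ := h2
      apply Subtype.ext
      apply h.disj s.1 s'.1 i j i' j' hij hij'
      rw [hi, hj, hi', hj']
  have hinj : Function.Injective (fun s : {x // x ∈ Sel} => (cp h Sel s).toSubgraph) := by
    intro s s' hss
    apply key s s' s(P s.1 i0, P s.1 j0)
    · rw [SimpleGraph.Subgraph.mem_edgeSet, cp_adj]
      exact ⟨i0, j0, hij0, rfl, rfl⟩
    · have : (cp h Sel s).toSubgraph = (cp h Sel s').toSubgraph := hss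
      rw [← this, SimpleGraph.Subgraph.mem_edgeSet, cp_adj]
      exact ⟨i0, j0, hij0, rfl, rfl⟩
  refine ⟨Finset.univ.image (fun s : {x // x ∈ Sel} => (cp h Sel s).toSubgraph), ?_, ?_, ?_, ?_⟩
  · rw [Finset.card_image_of_injective _ hinj, Finset.card_univ, Fintype.card_coe]
  · intro S hS S' hS' hne
    rw [Finset.mem_image] at hS hS'
    obtain ⟨s, _, rfl⟩ := hS
    obtain ⟨s', _, rfl⟩ := hS'
    rw [Set.disjoint_left]
    intro e he he'
    exact hne (by rw [key s s' e he he'])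
  · ext e
    induction e using Sym2.ind with
    | _ a b =>
      simp only [Finset.mem_image, Finset.mem_univ, true_and, Set.iUnion_exists,
        Set.iUnion_iUnion_eq', Set.mem_iUnion, SimpleGraph.Subgraph.mem_edgeSet, cp_adj,
        SimpleGraph.mem_edgeSet]
      constructor
      · rintro ⟨s, i, j, hij, hi, hj⟩
        exact ⟨s.1, s.2, i, j, hij, hi, hj⟩
      · rintro ⟨s, hs, i, j, hij, hi, hj⟩
        exact ⟨⟨s, hs⟩, i, j, hij, hi, hj⟩
  · intro S
    have hr : S ∈ Set.range (SimpleGraph.Copy.toSubgraph (A := F) (B := unionG h Sel)) ↔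
        Nonempty (F ≃g S.coe) := by
      rw [SimpleGraph.Copy.range_toSubgraph]
      rfl
    rw [← hr, Finset.mem_image]
    constructor
    · rintro ⟨s, _, rfl⟩
      exact ⟨_, rfl⟩
    · rintro ⟨f, rfl⟩
      have hfadj : ∀ v w, F.Adj v w → ∃ s ∈ Sel, ∃ i j, F.Adj i j ∧ P s i = f v ∧ P s j = f w :=
        fun v w hvw => f.toHom.map_adj hvw
      obtain ⟨s, σ, hσ, hf⟩ := h.uniq f f.injective (fun v w hvw => by
        obtain ⟨s, _, i, j, r⟩ := hfadj v w hvw
        exact ⟨s, i, j, r⟩)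
      have hs : s ∈ Sel := by
        obtain ⟨s', hs', i, j, hij, hi, hj⟩ := hfadj i0 j0 hij0
        have : s' = s := by
          apply h.disj s' s i j (σ i0) (σ j0) hij ((hσ _ _).1 hij0)
          rw [hi, hj, hf, hf]
        rw [← this]; exact hs'
      refine ⟨⟨s, hs⟩, Finset.mem_univ _, ?_⟩
      apply SimpleGraph.Subgraph.ext
      · ext a
        constructor
        · rintro ⟨v, _, hv⟩
          refine ⟨σ.symm v, trivial, ?_⟩
          change f (σ.symm v) = a
          rw [hf, Equiv.apply_symm_apply]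
          exact hv
        · rintro ⟨v, _, hv⟩
          refine ⟨σ v, trivial, ?_⟩
          have hv' : f v = a := hv
          change P s (σ v) = a
          rw [← hf]; exact hv'
      · funext a b
        rw [eq_iff_iff, cp_adj]
        constructor
        · rintro ⟨i, j, hij, hi, hj⟩
          refine ⟨σ.symm i, σ.symm j, ?_, ?_, ?_⟩
          · change F.Adj (σ.symm i) (σ.symm j)
            rw [hσ, Equiv.apply_symm_apply, Equiv.apply_symm_apply]; exact hij
          · change f (σ.symm i) = a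
            rw [hf, Equiv.apply_symm_apply]; exact hi
          · change f (σ.symm j) = b
            rw [hf, Equiv.apply_symm_apply]; exact hj
        · rintro ⟨v, w, hvw, hv, hw⟩
          have hvw' : F.Adj v w := hvw
          have hv' : f v = a := hv
          have hw' : f w = b := hw
          exact ⟨σ v, σ w, (hσ _ _).1 hvw', by rw [← hf]; exact hv', by rw [← hf]; exact hw'⟩

/-- The graph of the edges `i0 j0` of all placements. -/
def edgeG (h : Fam F P) {i0 j0 : V0} (hij0 : F.Adj i0 j0) : SimpleGraph W where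
  Adj a b := ∃ s, (P s i0 = a ∧ P s j0 = b) ∨ (P s i0 = b ∧ P s j0 = a)
  symm := ⟨fun a b ⟨s, hs⟩ => ⟨s, hs.symm⟩⟩
  loopless := ⟨fun a ⟨s, hs⟩ => by
    rcases hs with ⟨h1, h2⟩ | ⟨h1, h2⟩
    · exact hij0.ne (h.inj s (h1.trans h2.symm))
    · exact hij0.ne (h.inj s (h1.trans h2.symm))⟩

theorem edgeG_free (h : Fam F P) {i0 j0 : V0} (hij0 : F.Adj i0 j0) (a b b' : V0)
    (hab : F.Adj a b) (hab' : F.Adj a b') (hbb' : b ≠ b') : F.Free (edgeG h hij0) := by
  rintro ⟨f⟩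
  have hfadj : ∀ v w, F.Adj v w → ∃ s, (P s i0 = f v ∧ P s j0 = f w) ∨ (P s i0 = f w ∧ P s j0 = f v) :=
    fun v w hvw => f.toHom.map_adj hvw
  obtain ⟨s, σ, hσ, hf⟩ := h.uniq f f.injective (fun v w hvw => by
    obtain ⟨s, hs | hs⟩ := hfadj v w hvw
    · exact ⟨s, i0, j0, hij0, hs.1, hs.2⟩
    · exact ⟨s, j0, i0, hij0.symm, hs.2, hs.1⟩)
  have key : ∀ v w, F.Adj v w → s(σ v, σ w) = s(i0, j0) := by
    intro v w hvw
    obtain ⟨s', hs'⟩ := hfadj v w hvw
    have e1 : s(P s' i0, P s' j0) = s(P s (σ v), P s (σ w)) := by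
      rw [← hf, ← hf]
      rcases hs' with ⟨h1, h2⟩ | ⟨h1, h2⟩
      · rw [h1, h2]
      · rw [h1, h2, Sym2.eq_swap]
    have e2 : s' = s := h.disj s' s i0 j0 (σ v) (σ w) hij0 ((hσ _ _).1 hvw) e1
    rw [e2] at e1
    have e3 : Sym2.map (P s) s(i0, j0) = Sym2.map (P s) s(σ v, σ w) := e1
    exact (Sym2.map.injective (h.inj s) e3).symm
  have k1 := key a b hab
  have k2 := key a b' hab'
  rw [← k2] at k1
  have : σ b = σ b' := by
    rw [Sym2.eq_iff] at k1
    rcases k1 with ⟨_, h2⟩ | ⟨h1, h2⟩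
    · exact h2
    · rw [h2, ← h1]
  exact hbb' (σ.injective this)

theorem edgeG_card [Fintype ι] (h : Fam F P) {i0 j0 : V0} (hij0 : F.Adj i0 j0)
    [Fintype (edgeG h hij0).edgeSet] :
    Fintype.card ι ≤ (edgeG h hij0).edgeFinset.card := by
  classical
  rw [← Finset.card_univ]
  apply Finset.card_le_card_of_injOn (fun s => s(P s i0, P s j0))
  · intro s _
    rw [Finset.mem_coe, SimpleGraph.mem_edgeFinset, SimpleGraph.mem_edgeSet]
    exact ⟨s, Or.inl ⟨rfl, rfl⟩⟩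
  · intro s _ s' _ hss
    exact h.disj s s' i0 j0 i0 j0 hij0 hij0 hss

end Pool.Agent.TH352.SR
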