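import Mathlib

namespace Pool.Agent.TH352.SR

variable {K : Type*} [Field K]

/-- The four cycle relation for the parabola graphs. -/
lemma rel_quad (C0 C1 C2 C3 a0 a1 a2 a3 b0 b1 b2 b3 th s t : K)
    (h12 : (C2 - C1) * (b2 - b1) = (a2 - a1) ^ 2)
    (ha1 : a1 = a0 + (C1 - C0) * (th + s)) (hb1 : b1 = b0 + (C1 - C0) * (th + s) ^ 2)
    (ha3 : a3 = a0 + (C3 - C0) * th) (hb3 : b3 = b0 + (C3 - C0) * th ^ 2)
    (ha2 : a2 = a3 + (C2 - C3) * (th + t)) (hb2 : b2 = b3 + (C2 - C3) * (th + t) ^ 2) :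
    (C1 - C0) * (C2 - C0) * s ^ 2 + 2 * ((C1 - C0) * (C3 - C2)) * (s * t)
      + (C3 - C2) * (C3 - C1) * t ^ 2 = 0 := by
  subst ha1 hb1 ha3 hb3 ha2 hb2
  linear_combination -h12

/-- From the relation of adjacency to the parametrisation. -/
lemma par_of_adj {Ci Cj ai aj bi bj : K} (hne : Cj - Ci ≠ 0)
    (h : (Cj - Ci) * (bj - bi) = (aj - ai) ^ 2) :
    aj = ai + (Cj - Ci) * ((aj - ai) / (Cj - Ci)) ∧
      bj = bi + (Cj - Ci) * ((aj - ai) / (Cj - Ci)) ^ 2 := by
  constructor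
  · field_simp
    ring
  · have : (Cj - Ci) * ((aj - ai) / (Cj - Ci)) ^ 2 = (aj - ai) ^ 2 / (Cj - Ci) := by
      field_simp
    rw [this, ← h]
    field_simp
    ring

/-- anisotropy. -/
lemma aniso {A B D s t : K} (h : A * s ^ 2 + 2 * B * (s * t) + D * t ^ 2 = 0)
    (hN : ¬ IsSquare (B ^ 2 - A * D)) : t = 0 := by
  by_contra ht
  apply hN
  refine ⟨(A * s + B * t) / t, ?_⟩
  field_simp
  linear_combination (-A) * h

/-- uniqueness when the last coefficient vanishes. -/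
lemma uniq_D {A B s t t' : K} (h2 : (2 : K) ≠ 0) (hB : B ≠ 0) (hs : s ≠ 0)
    (h : A * s ^ 2 + 2 * B * (s * t) + 0 * t ^ 2 = 0)
    (h' : A * s ^ 2 + 2 * B * (s * t') + 0 * t' ^ 2 = 0) : t = t' := by
  have h1 : (2 * B * s) * (t - t') = 0 := by linear_combination h - h'
  rcases mul_eq_zero.1 h1 with h3 | h3
  · exact absurd h3 (mul_ne_zero (mul_ne_zero h2 hB) hs)
  · exact sub_eq_zero.1 h3

/-- uniqueness when the first coefficient vanishes. -/
lemma uniq_A {B D s t t' : K} (hD : D ≠ 0) (ht : t ≠ 0) (ht' : t' ≠ 0)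
    (h : 0 * s ^ 2 + 2 * B * (s * t) + D * t ^ 2 = 0)
    (h' : 0 * s ^ 2 + 2 * B * (s * t') + D * t' ^ 2 = 0) : t = t' := by
  have e1 : t * (2 * B * s + D * t) = 0 := by linear_combination h
  have e2 : t' * (2 * B * s + D * t') = 0 := by linear_combination h'
  have e3 := (mul_eq_zero.1 e1).resolve_left ht
  have e4 := (mul_eq_zero.1 e2).resolve_left ht'
  have e5 : D * (t - t') = 0 := by linear_combination e3 - e4
  exact sub_eq_zero.1 ((mul_eq_zero.1 e5).resolve_left hD)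

/-- at most two solutions. -/
lemma two_sol {A B D s t t' t'' : K} (hD : D ≠ 0)
    (h : A * s ^ 2 + 2 * B * (s * t) + D * t ^ 2 = 0)
    (h' : A * s ^ 2 + 2 * B * (s * t') + D * t' ^ 2 = 0)
    (h'' : A * s ^ 2 + 2 * B * (s * t'') + D * t'' ^ 2 = 0)
    (n1 : t ≠ t') (n2 : t ≠ t'') : t' = t'' := by
  have e1 : (t - t') * (2 * B * s + D * (t + t')) = 0 := by linear_combination h - h'
  have e2 : (t - t'') * (2 * B * s + D * (t + t'')) = 0 := by linear_combination h - h''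
  have e3 := (mul_eq_zero.1 e1).resolve_left (sub_ne_zero.2 n1)
  have e4 := (mul_eq_zero.1 e2).resolve_left (sub_ne_zero.2 n2)
  have e5 : D * (t' - t'') = 0 := by linear_combination e3 - e4
  exact sub_eq_zero.1 ((mul_eq_zero.1 e5).resolve_left hD)

/-- A finite set on which an injective function satisfies the relation has few elements. -/
lemma card_bound {ι : Type*} [DecidableEq ι] (S : Finset ι) (g : ι → K) (A B D s : K)
    (h2 : (2 : K) ≠ 0) (hB : B ≠ 0) (hs : s ≠ 0)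
    (hinj : ∀ x ∈ S, ∀ y ∈ S, g x = g y → x = y) (hg : ∀ x ∈ S, g x ≠ 0)
    (hrel : ∀ x ∈ S, A * s ^ 2 + 2 * B * (s * g x) + D * g x ^ 2 = 0) :
    S.card ≤ 2 ∧ (A = 0 ∨ D = 0 → S.card ≤ 1) ∧ (A = 0 ∧ D = 0 → S.card = 0) ∧
      (¬ IsSquare (B ^ 2 - A * D) → S.card = 0) := by
  have key1 : A = 0 ∨ D = 0 → S.card ≤ 1 := by
    intro h
    rw [Finset.card_le_one]
    intro x hx y hy
    apply hinj x hx y hy
    rcases eq_or_ne D 0 with hD | hD
    · subst hD
      exact uniq_D h2 hB hs (hrel x hx) (hrel y hy)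
    · rcases h with h | h
      · subst h
        exact uniq_A hD (hg x hx) (hg y hy) (hrel x hx) (hrel y hy)
      · exact absurd h hD
  have key0 : A = 0 ∧ D = 0 → S.card = 0 := by
    rintro ⟨hA, hD⟩
    subst hA hD
    rw [Finset.card_eq_zero, Finset.eq_empty_iff_forall_notMem]
    intro x hx
    have h := hrel x hx
    have : 2 * B * (s * g x) = 0 := by linear_combination h
    exact (mul_ne_zero (mul_ne_zero h2 hB) (mul_ne_zero hs (hg x hx))) this
  refine ⟨?_, key1, key0, ?_⟩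
  · rcases eq_or_ne D 0 with hD | hD
    · exact le_trans (key1 (Or.inr hD)) (by norm_num)
    · by_contra hlt
      push Not at hlt
      obtain ⟨x, hx, y, hy, z, hz, hxy, hxz, hyz⟩ := Finset.two_lt_card.1 hlt
      have := two_sol hD (hrel x hx) (hrel y hy) (hrel z hz)
        (fun h => hxy (hinj x hx y hy h)) (fun h => hxz (hinj x hx z hz h))
      exact hyz (hinj y hy z hz this)
  · intro hN
    rw [Finset.card_eq_zero, Finset.eq_empty_iff_forall_notMem]
    intro x hx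
    exact hg x hx (aniso (hrel x hx) hN)

end Pool.Agent.TH352.SR
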