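import Mathlib

namespace Pool.Agent.TH352.SR

/-- Row masks of the adjacency matrix of the bipartite graph `FG` below. -/
def mask : ℕ → ℕ
  | 0 => 58902
  | 1 => 6633
  | 2 => 457
  | 3 => 1558
  | 4 => 6185
  | 5 => 57362
  | 6 => 6
  | 7 => 6
  | 8 => 6
  | 9 => 9
  | 10 => 9
  | 11 => 18
  | 12 => 18
  | 13 => 33
  | 14 => 33
  | 15 => 33
  | _ => 0

/-- adjacency of the graph `FG`. -/
def adjB (i j : Fin 16) : Bool := (mask i.val).testBit j.val

/-- Class `U` of the tree: the tree vertices adjacent to `0`. -/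
def isU (i : Fin 16) : Bool := (58900 : ℕ).testBit i.val

/-- Class `W` of the tree: the tree vertices adjacent to `1`. -/
def isW (i : Fin 16) : Bool := (6632 : ℕ).testBit i.val

/-- The tree parent. -/
def par : ℕ → ℕ
  | 3 => 2
  | 4 => 3
  | 5 => 4
  | 6 => 2
  | 7 => 2
  | 8 => 2
  | 9 => 3
  | 10 => 3
  | 11 => 4
  | 12 => 4
  | 13 => 5
  | 14 => 5
  | 15 => 5
  | _ => 0

lemma adjB_symm : ∀ i j : Fin 16, adjB i j = adjB j i := by decide

lemma adjB_irrefl : ∀ i : Fin 16, adjB i i = false := by decide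

/-- The graph on 16 vertices used in the construction. -/
def FG : SimpleGraph (Fin 16) where
  Adj i j := adjB i j = true
  symm := ⟨fun i j h => by rw [adjB_symm]; exact h⟩
  loopless := ⟨fun i h => by rw [adjB_irrefl] at h; exact Bool.noConfusion h⟩

instance : DecidableRel FG.Adj := fun i j => inferInstanceAs (Decidable (adjB i j = true))

/-- both `0` and `1` occur among the four labels. -/
def has01 (i0 i1 i2 i3 : Fin 16) : Bool :=
  (i0.val == 0 || i1.val == 0 || i2.val == 0 || i3.val == 0) &&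
    (i0.val == 1 || i1.val == 1 || i2.val == 1 || i3.val == 1)

/-- multiplicity bound. -/
def mm (i0 i1 i2 i3 : Fin 16) : ℕ :=
  bif adjB i0 i1 && (adjB i1 i2 && adjB i2 i3) then
    (bif i1.val == i3.val then (bif i2.val == i0.val then 0 else 1)
      else (bif i2.val == i0.val then 1 else (bif has01 i0 i1 i2 i3 then 0 else 2)))
  else 0

def sum16 (f : Fin 16 → ℕ) : ℕ :=
  f 0 + f 1 + f 2 + f 3 + f 4 + f 5 + f 6 + f 7 + f 8 + f 9 + f 10 + f 11 + f 12 + f 13 + f 14 + f 15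

def capA (i0 i3 i1 : Fin 16) : ℕ := sum16 (fun i2 => mm i0 i1 i2 i3)

def capB (i0 i3 i2 : Fin 16) : ℕ := sum16 (fun i1 => mm i0 i1 i2 i3)

set_option maxRecDepth 100000 in
lemma comb : ∀ i0 i3 : Fin 16, adjB i0 i3 = true →
    ∀ j2 : Fin 16, Nat.ble 4 (capA i0 i3 j2) = true →
    ∀ j3 : Fin 16, Nat.ble 1 (mm i0 j2 j3 i3) = true → Nat.ble 4 (capB i0 i3 j3) = true →
    ∀ j4 : Fin 16, Nat.ble 1 (mm i0 j4 j3 i3) = true → Nat.ble 4 (capA i0 i3 j4) = true →
    (j2 = j4 → Nat.ble 2 (mm i0 j2 j3 i3) = true) →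
    ∀ j5 : Fin 16, Nat.ble 1 (mm i0 j4 j5 i3) = true → Nat.ble 4 (capB i0 i3 j5) = true →
    (j3 = j5 → Nat.ble 2 (mm i0 j4 j3 i3) = true) → False := by
  decide +kernel

end Pool.Agent.TH352.SR
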