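import Mathlib
import Pool.Agent.TH352.SRGraph
import Pool.Agent.TH352.SRAlg

namespace Pool.Agent.TH352.SR

variable {K : Type*} [Field K]

/-- The parabola graph over a base graph `G` with vertex weights `c`. -/
def HG {V : Type*} (G : SimpleGraph V) (c : V → K) : SimpleGraph (V × K × K) where
  Adj P Q := G.Adj P.1 Q.1 ∧ (c Q.1 - c P.1) * (Q.2.2 - P.2.2) = (Q.2.1 - P.2.1) ^ 2
  symm := ⟨fun P Q h => ⟨h.1.symm, by linear_combination h.2⟩⟩
  loopless := ⟨fun P h => h.1.ne rfl⟩

/-- The planted point of part `i`. -/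
def pt {V : Type*} (c : V → K) (g : K × K) (θ : K) (i : V) : V × K × K :=
  (i, g.1 + c i * θ, g.2 + c i * θ ^ 2)

/-- Conditions on the weights. -/
structure Good (c : Fin 16 → K) : Prop where
  inj : Function.Injective c
  two : (2 : K) ≠ 0
  nr : ∀ i0 i1 i2 i3 : Fin 16, adjB i0 i1 = true → adjB i1 i2 = true → adjB i2 i3 = true →
    adjB i3 i0 = true → i1 ≠ i3 → i2 ≠ i0 → has01 i0 i1 i2 i3 = true →
    ¬ IsSquare ((c i1 - c i0) * (c i2 - c i1) * (c i3 - c i2) * (c i0 - c i3))

lemma adjU : ∀ u : Fin 16, isU u = true → adjB 0 u = true := by decide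
lemma adjW : ∀ w : Fin 16, isW w = true → adjB 1 w = true := by decide
lemma U_not_W : ∀ u : Fin 16, isW u = true → isU u = false := by decide
lemma vcases : ∀ v : Fin 16, v = 0 ∨ v = 1 ∨ isU v = true ∨ isW v = true := by decide

lemma sum16_eq (f : Fin 16 → ℕ) : sum16 f = ∑ i, f i := by
  simp only [sum16, Fin.sum_univ_succ, Finset.univ_eq_empty, Finset.sum_empty]
  simp only [Fin.succ_zero_eq_one]
  norm_num [Fin.succ]
  ring_nf
  rfl

/-- the sets of tree neighbours -/
def nW (u : Fin 16) : Finset (Fin 16) := Finset.univ.filter (fun w => isW w = true ∧ adjB u w = true)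
def nU (w : Fin 16) : Finset (Fin 16) := Finset.univ.filter (fun u => isU u = true ∧ adjB u w = true)

lemma mm_one {i0 i1 i2 i3 : Fin 16} (h : adjB i0 i1 = true ∧ adjB i1 i2 = true ∧ adjB i2 i3 = true) :
    mm i0 i1 i2 i3 = (if i1 = i3 then (if i2 = i0 then 0 else 1)
      else (if i2 = i0 then 1 else (if has01 i0 i1 i2 i3 = true then 0 else 2))) := by
  unfold mm
  rw [h.1, h.2.1, h.2.2]
  simp only [Bool.and_self, cond_true]
  by_cases h1 : i1 = i3
  · have b1 : (i1.val == i3.val) = true := by simp [h1]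
    by_cases h2 : i2 = i0
    · have b2 : (i2.val == i0.val) = true := by simp [h2]
      rw [b1, b2, if_pos h1, if_pos h2]; rfl
    · have b2 : (i2.val == i0.val) = false := by
        rw [beq_eq_false_iff_ne]; exact fun h => h2 (Fin.ext h)
      rw [b1, b2, if_pos h1, if_neg h2]; rfl
  · have b1 : (i1.val == i3.val) = false := by
      rw [beq_eq_false_iff_ne]; exact fun h => h1 (Fin.ext h)
    by_cases h2 : i2 = i0
    · have b2 : (i2.val == i0.val) = true := by simp [h2]
      rw [b1, b2, if_neg h1, if_pos h2]; rfl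
    · have b2 : (i2.val == i0.val) = false := by
        rw [beq_eq_false_iff_ne]; exact fun h => h2 (Fin.ext h)
      rw [b1, b2, if_neg h1, if_neg h2]
      by_cases h3 : has01 i0 i1 i2 i3 = true
      · rw [if_pos h3, h3]; rfl
      · rw [if_neg h3, Bool.eq_false_iff.2 h3]; rfl

/-- Core counting statement. -/
lemma fiber_le {c : Fin 16 → K} (hc : Good c) {ι : Type*} [DecidableEq ι] (S : Finset ι)
    (g : ι → K) (i0 i1 i2 i3 : Fin 16) (s : K) (hs : s ≠ 0)
    (hadj : S.Nonempty → adjB i0 i1 = true ∧ adjB i1 i2 = true ∧ adjB i2 i3 = true ∧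
      adjB i3 i0 = true)
    (hinj : ∀ x ∈ S, ∀ y ∈ S, g x = g y → x = y) (hg : ∀ x ∈ S, g x ≠ 0)
    (A D : K)
    (hAD : (A = (c i1 - c i0) * (c i2 - c i0) ∧ D = (c i3 - c i2) * (c i3 - c i1)) ∨
      (D = (c i1 - c i0) * (c i2 - c i0) ∧ A = (c i3 - c i2) * (c i3 - c i1)))
    (hrel : ∀ x ∈ S, A * s ^ 2 + 2 * ((c i1 - c i0) * (c i3 - c i2)) * (s * g x)
      + D * g x ^ 2 = 0) :
    S.card ≤ mm i0 i1 i2 i3 := by
  classical
  rcases S.eq_empty_or_nonempty with hS | hS
  · rw [hS]; simp
  obtain ⟨h01, h12, h23, h30⟩ := hadj hS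
  rw [mm_one ⟨h01, h12, h23⟩]
  have nadj : ∀ {i j : Fin 16}, adjB i j = true → c j - c i ≠ 0 := by
    intro i j hij h
    have := hc.inj (sub_eq_zero.1 h)
    subst this
    rw [adjB_irrefl] at hij
    exact Bool.noConfusion hij
  have hB : (c i1 - c i0) * (c i3 - c i2) ≠ 0 := mul_ne_zero (nadj h01) (nadj h23)
  obtain ⟨k2, k1, k0, kN⟩ := card_bound S g A ((c i1 - c i0) * (c i3 - c i2)) D s hc.two hB hs
    hinj hg hrel
  by_cases e1 : i1 = i3
  · have z1 : (c i3 - c i2) * (c i3 - c i1) = 0 := by rw [e1]; ring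
    by_cases e2 : i2 = i0
    · have z2 : (c i1 - c i0) * (c i2 - c i0) = 0 := by rw [e2]; ring
      rw [if_pos e1, if_pos e2]
      apply le_of_eq
      apply k0
      rcases hAD with ⟨h1, h2⟩ | ⟨h1, h2⟩
      · exact ⟨by rw [h1, z2], by rw [h2, z1]⟩
      · exact ⟨by rw [h2, z1], by rw [h1, z2]⟩
    · rw [if_pos e1, if_neg e2]
      apply k1
      rcases hAD with ⟨h1, h2⟩ | ⟨h1, h2⟩
      · exact Or.inr (by rw [h2, z1])
      · exact Or.inl (by rw [h2, z1])
  · rw [if_neg e1]
    by_cases e2 : i2 = i0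
    · have z2 : (c i1 - c i0) * (c i2 - c i0) = 0 := by rw [e2]; ring
      rw [if_pos e2]
      apply k1
      rcases hAD with ⟨h1, h2⟩ | ⟨h1, h2⟩
      · exact Or.inl (by rw [h1, z2])
      · exact Or.inr (by rw [h1, z2])
    · rw [if_neg e2]
      by_cases e3 : has01 i0 i1 i2 i3 = true
      · rw [if_pos e3]
        apply le_of_eq
        apply kN
        intro hsq
        apply hc.nr i0 i1 i2 i3 h01 h12 h23 h30 e1 e2 e3
        have : (c i1 - c i0) * (c i2 - c i1) * (c i3 - c i2) * (c i0 - c i3) =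
            ((c i1 - c i0) * (c i3 - c i2)) ^ 2 - A * D := by
          rcases hAD with ⟨h1, h2⟩ | ⟨h1, h2⟩
          · rw [h1, h2]; ring
          · rw [h1, h2]; ring
        rw [this]
        exact hsq
      · rw [if_neg e3]
        exact k2

set_option maxHeartbeats 4000000 in
theorem unique_copy {c : Fin 16 → K} (hc : Good c) (f : Fin 16 → Fin 16 × K × K)
    (hf : Function.Injective f)
    (hadj : ∀ v w, adjB v w = true → (HG FG c).Adj (f v) (f w)) :
    ∃ g : K × K, ∃ θ : K, ∀ v, f v = pt c g θ (f v).1 := by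
  classical
  set φ : Fin 16 → Fin 16 := fun v => (f v).1 with hφdef
  set C : Fin 16 → K := fun v => c (φ v) with hCdef
  set a : Fin 16 → K := fun v => (f v).2.1 with hadef
  set b : Fin 16 → K := fun v => (f v).2.2 with hbdef
  have hφ : ∀ v w, adjB v w = true → adjB (φ v) (φ w) = true := fun v w h => (hadj v w h).1
  have hrel : ∀ v w, adjB v w = true → (C w - C v) * (b w - b v) = (a w - a v) ^ 2 :=
    fun v w h => (hadj v w h).2
  have hne : ∀ v w, adjB v w = true → C w - C v ≠ 0 := by
    intro v w h h0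
    have := hφ v w h
    rw [hc.inj (sub_eq_zero.1 h0), adjB_irrefl] at this
    exact Bool.noConfusion this
  set th : K := (a 1 - a 0) / (C 1 - C 0) with hth
  set δ : Fin 16 → K := fun v => if isU v = true then (a v - a 0) / (C v - C 0) - th
    else (a v - a 1) / (C v - C 1) - th with hδ
  have h01 : adjB 0 1 = true := by decide
  obtain ⟨ha1, hb1⟩ := par_of_adj (hne 0 1 h01) (hrel 0 1 h01)
  rw [← hth] at ha1 hb1
  have hU : ∀ u, isU u = true → a u = a 0 + (C u - C 0) * (th + δ u) ∧
      b u = b 0 + (C u - C 0) * (th + δ u) ^ 2 := by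
    intro u hu
    have h := par_of_adj (hne 0 u (adjU u hu)) (hrel 0 u (adjU u hu))
    have e : th + δ u = (a u - a 0) / (C u - C 0) := by
      simp only [hδ, hu, if_true]; ring
    rw [e]; exact h
  have hW : ∀ w, isW w = true → a w = a 1 + (C w - C 1) * (th + δ w) ∧
      b w = b 1 + (C w - C 1) * (th + δ w) ^ 2 := by
    intro w hw
    have h := par_of_adj (hne 1 w (adjW w hw)) (hrel 1 w (adjW w hw))
    have e : th + δ w = (a w - a 1) / (C w - C 1) := by
      simp only [hδ, U_not_W w hw]; simp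
    rw [e]; exact h
  have hR : ∀ u w, isU u = true → isW w = true → adjB u w = true →
      (C u - C 0) * (C w - C 0) * δ u ^ 2 + 2 * ((C u - C 0) * (C 1 - C w)) * (δ u * δ w)
        + (C 1 - C w) * (C 1 - C u) * δ w ^ 2 = 0 := by
    intro u w hu hw huw
    exact rel_quad (C 0) (C u) (C w) (C 1) (a 0) (a u) (a w) (a 1) (b 0) (b u) (b w) (b 1) th
      (δ u) (δ w) (hrel u w huw) (hU u hu).1 (hU u hu).2 ha1 hb1 (hW w hw).1 (hW w hw).2
  -- coincidences
  have eqf : ∀ v w, φ v = φ w → a v = a w → b v = b w → v = w := by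
    intro v w h1 h2 h3
    exact hf (Prod.ext h1 (Prod.ext h2 h3))
  have injW : ∀ w w', isW w = true → isW w' = true → φ w = φ w' → δ w = δ w' → w = w' := by
    intro w w' hw hw' h1 h2
    have hC : C w = C w' := by simp only [hCdef, h1]
    refine eqf w w' h1 ?_ ?_
    · rw [(hW w hw).1, (hW w' hw').1, hC, h2]
    · rw [(hW w hw).2, (hW w' hw').2, hC, h2]
  have injU : ∀ w w', isU w = true → isU w' = true → φ w = φ w' → δ w = δ w' → w = w' := by
    intro w w' hw hw' h1 h2
    have hC : C w = C w' := by simp only [hCdef, h1]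
    refine eqf w w' h1 ?_ ?_
    · rw [(hU w hw).1, (hU w' hw').1, hC, h2]
    · rw [(hU w hw).2, (hU w' hw').2, hC, h2]
  have ne0 : ∀ w, isW w = true → w ≠ 0 := by decide
  have ne1 : ∀ w, isU w = true → w ≠ 1 := by decide
  have coinU : ∀ u, isU u = true → φ u = φ 1 → δ u ≠ 0 := by
    intro u hu h1 h2
    have hC : C u = C 1 := by simp only [hCdef, h1]
    apply ne1 u hu
    refine eqf u 1 h1 ?_ ?_
    · rw [(hU u hu).1, ha1, hC, h2]; ring
    · rw [(hU u hu).2, hb1, hC, h2]; ring
  have coinW : ∀ w, isW w = true → φ w = φ 0 → δ w ≠ 0 := by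
    intro w hw h1 h2
    have hC : C w = C 0 := by simp only [hCdef, h1]
    apply ne0 w hw
    refine eqf w 0 h1 ?_ ?_
    · rw [(hW w hw).1, ha1, hC, h2]; ring
    · rw [(hW w hw).2, hb1, hC, h2]; ring
  have hinjC : ∀ v w, C v - C w = 0 → φ v = φ w := fun v w h => hc.inj (sub_eq_zero.1 h)
  have hz : ∀ u w, isU u = true → isW w = true → adjB u w = true → (δ u = 0 ↔ δ w = 0) := by
    intro u w hu hw huw
    have hr := hR u w hu hw huw
    constructor
    · intro h
      have h1 : (C 1 - C w) * (C 1 - C u) * δ w ^ 2 = 0 := by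
        rw [h] at hr; linear_combination hr
      rcases mul_eq_zero.1 h1 with h2 | h2
      · rcases mul_eq_zero.1 h2 with h3 | h3
        · exact absurd h3 (hne w 1 (by rw [adjB_symm]; exact adjW w hw))
        · exact absurd h (coinU u hu (hinjC 1 u h3).symm)
      · exact pow_eq_zero_iff (two_ne_zero) |>.1 h2
    · intro h
      have h1 : (C u - C 0) * (C w - C 0) * δ u ^ 2 = 0 := by
        rw [h] at hr; linear_combination hr
      rcases mul_eq_zero.1 h1 with h2 | h2
      · rcases mul_eq_zero.1 h2 with h3 | h3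
        · exact absurd h3 (hne 0 u (adjU u hu))
        · exact absurd h (coinW w hw (hinjC w 0 h3))
      · exact pow_eq_zero_iff (two_ne_zero) |>.1 h2
  have z3 : δ 2 = 0 ↔ δ 3 = 0 := hz 2 3 (by decide) (by decide) (by decide)
  have z4 : δ 4 = 0 ↔ δ 3 = 0 := hz 4 3 (by decide) (by decide) (by decide)
  have z5 : δ 4 = 0 ↔ δ 5 = 0 := hz 4 5 (by decide) (by decide) (by decide)
  have z6 : δ 2 = 0 ↔ δ 6 = 0 := hz 2 6 (by decide) (by decide) (by decide)
  have z7 : δ 2 = 0 ↔ δ 7 = 0 := hz 2 7 (by decide) (by decide) (by decide)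
  have z8 : δ 2 = 0 ↔ δ 8 = 0 := hz 2 8 (by decide) (by decide) (by decide)
  have z9 : δ 9 = 0 ↔ δ 3 = 0 := hz 9 3 (by decide) (by decide) (by decide)
  have z10 : δ 10 = 0 ↔ δ 3 = 0 := hz 10 3 (by decide) (by decide) (by decide)
  have z11 : δ 4 = 0 ↔ δ 11 = 0 := hz 4 11 (by decide) (by decide) (by decide)
  have z12 : δ 4 = 0 ↔ δ 12 = 0 := hz 4 12 (by decide) (by decide) (by decide)
  have z13 : δ 13 = 0 ↔ δ 5 = 0 := hz 13 5 (by decide) (by decide) (by decide)
  have z14 : δ 14 = 0 ↔ δ 5 = 0 := hz 14 5 (by decide) (by decide) (by decide)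
  have z15 : δ 15 = 0 ↔ δ 5 = 0 := hz 15 5 (by decide) (by decide) (by decide)
  have zall : ∀ v, isU v = true ∨ isW v = true → (δ v = 0 ↔ δ 2 = 0) := by
    have hb0 : ¬ (isU 0 = true ∨ isW 0 = true) := by decide
    have hb1 : ¬ (isU 1 = true ∨ isW 1 = true) := by decide
    intro v hv
    fin_cases v
    · exact absurd hv hb0
    · exact absurd hv hb1
    · exact Iff.rfl
    · exact z3.symm
    · exact z4.trans z3.symm
    · exact (z5.symm.trans z4).trans z3.symm
    · exact z6.symm
    · exact z7.symm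
    · exact z8.symm
    · exact z9.trans z3.symm
    · exact z10.trans z3.symm
    · exact (z11.symm.trans z4).trans z3.symm
    · exact (z12.symm.trans z4).trans z3.symm
    · exact z13.trans ((z5.symm.trans z4).trans z3.symm)
    · exact z14.trans ((z5.symm.trans z4).trans z3.symm)
    · exact z15.trans ((z5.symm.trans z4).trans z3.symm)
  by_cases h2 : δ 2 = 0
  · -- all planted
    refine ⟨(a 0 - C 0 * th, b 0 - C 0 * th ^ 2), th, ?_⟩
    intro v
    have hfv : f v = (φ v, a v, b v) := rfl
    have goal : a v = a 0 - C 0 * th + C v * th ∧ b v = b 0 - C 0 * th ^ 2 + C v * th ^ 2 := by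
      rcases vcases v with h | h | h | h
      · subst h; constructor <;> ring
      · subst h; rw [ha1, hb1]; constructor <;> ring
      · have hd := (zall v (Or.inl h)).2 h2
        rw [(hU v h).1, (hU v h).2, hd]; constructor <;> ring
      · have hd := (zall v (Or.inr h)).2 h2
        rw [(hW v h).1, (hW v h).2, hd, ha1, hb1]; constructor <;> ring
    rw [hfv]
    exact Prod.ext rfl (Prod.ext goal.1 goal.2)
  · exfalso
    have nz : ∀ v, isU v = true ∨ isW v = true → δ v ≠ 0 := fun v hv h =>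
      h2 ((zall v hv).1 h)
    -- fibres
    have h10 : adjB (φ 1) (φ 0) = true := hφ 1 0 (by decide)
    have FA : ∀ u, isU u = true → ∀ i2 : Fin 16,
        ((nW u).filter (fun w => φ w = i2)).card ≤ mm (φ 0) (φ u) i2 (φ 1) := by
      intro u hu i2
      apply fiber_le hc _ δ (φ 0) (φ u) i2 (φ 1) (δ u) (nz u (Or.inl hu))
      · rintro ⟨w, hw⟩
        simp only [nW, Finset.mem_filter, Finset.mem_univ, true_and] at hw
        obtain ⟨⟨hw1, hw2⟩, hw3⟩ := hw
        refine ⟨hφ 0 u (adjU u hu), ?_, ?_, h10⟩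
        · rw [← hw3]; exact hφ u w hw2
        · rw [← hw3]; exact hφ w 1 (by rw [adjB_symm]; exact adjW w hw1)
      · intro x hx y hy hxy
        simp only [nW, Finset.mem_filter, Finset.mem_univ, true_and] at hx hy
        exact injW x y hx.1.1 hy.1.1 (hx.2.trans hy.2.symm) hxy
      · intro x hx
        simp only [nW, Finset.mem_filter, Finset.mem_univ, true_and] at hx
        exact nz x (Or.inr hx.1.1)
      · exact Or.inl ⟨rfl, rfl⟩
      · intro x hx
        simp only [nW, Finset.mem_filter, Finset.mem_univ, true_and] at hx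
        have := hR u x hu hx.1.1 hx.1.2
        rw [← hx.2]
        exact this
    have FB : ∀ w, isW w = true → ∀ i1 : Fin 16,
        ((nU w).filter (fun u => φ u = i1)).card ≤ mm (φ 0) i1 (φ w) (φ 1) := by
      intro w hw i1
      apply fiber_le hc _ δ (φ 0) i1 (φ w) (φ 1) (δ w) (nz w (Or.inr hw))
      · rintro ⟨u, hu⟩
        simp only [nU, Finset.mem_filter, Finset.mem_univ, true_and] at hu
        obtain ⟨⟨hw1, hw2⟩, hw3⟩ := hu
        refine ⟨?_, ?_, hφ w 1 (by rw [adjB_symm]; exact adjW w hw), h10⟩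
        · rw [← hw3]; exact hφ 0 u (adjU u hw1)
        · rw [← hw3]; exact hφ u w hw2
      · intro x hx y hy hxy
        simp only [nU, Finset.mem_filter, Finset.mem_univ, true_and] at hx hy
        exact injU x y hx.1.1 hy.1.1 (hx.2.trans hy.2.symm) hxy
      · intro x hx
        simp only [nU, Finset.mem_filter, Finset.mem_univ, true_and] at hx
        exact nz x (Or.inl hx.1.1)
      · exact Or.inr ⟨rfl, rfl⟩
      · intro x hx
        simp only [nU, Finset.mem_filter, Finset.mem_univ, true_and] at hx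
        have := hR x w hx.1.1 hw hx.1.2
        rw [← hx.2]
        linear_combination this
    have CA : ∀ u, isU u = true → (nW u).card ≤ capA (φ 0) (φ 1) (φ u) := by
      intro u hu
      rw [capA, sum16_eq, Finset.card_eq_sum_card_fiberwise (f := φ) (t := Finset.univ)
        (fun x _ => Finset.mem_coe.2 (Finset.mem_univ _))]
      exact Finset.sum_le_sum (fun i2 _ => FA u hu i2)
    have CB : ∀ w, isW w = true → (nU w).card ≤ capB (φ 0) (φ 1) (φ w) := by
      intro w hw
      rw [capB, sum16_eq, Finset.card_eq_sum_card_fiberwise (f := φ) (t := Finset.univ)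
        (fun x _ => Finset.mem_coe.2 (Finset.mem_univ _))]
      exact Finset.sum_le_sum (fun i1 _ => FB w hw i1)
    have pos : ∀ u w, isU u = true → isW w = true → adjB u w = true →
        1 ≤ mm (φ 0) (φ u) (φ w) (φ 1) := by
      intro u w hu hw huw
      refine le_trans ?_ (FA u hu (φ w))
      rw [Finset.one_le_card]
      exact ⟨w, by simp [nW, hw, huw]⟩
    refine comb (φ 0) (φ 1) (hφ 0 1 h01) (φ 2) ?_ (φ 3) ?_ ?_ (φ 4) ?_ ?_ ?_ (φ 5) ?_ ?_ ?_
    · exact Nat.ble_eq_true_of_le (le_trans (by decide) (CA 2 (by decide)))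
    · exact Nat.ble_eq_true_of_le (pos 2 3 (by decide) (by decide) (by decide))
    · exact Nat.ble_eq_true_of_le (le_trans (by decide) (CB 3 (by decide)))
    · exact Nat.ble_eq_true_of_le (pos 4 3 (by decide) (by decide) (by decide))
    · exact Nat.ble_eq_true_of_le (le_trans (by decide) (CA 4 (by decide)))
    · intro h
      refine Nat.ble_eq_true_of_le (le_trans ?_ (FB 3 (by decide) (φ 2)))
      have hsub : ({2, 4} : Finset (Fin 16)) ⊆ (nU 3).filter (fun u => φ u = φ 2) := by
        intro x hx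
        simp only [Finset.mem_insert, Finset.mem_singleton] at hx
        rcases hx with rfl | rfl
        · exact Finset.mem_filter.2 ⟨by decide, rfl⟩
        · exact Finset.mem_filter.2 ⟨by decide, h.symm⟩
      exact le_trans (by decide) (Finset.card_le_card hsub)
    · exact Nat.ble_eq_true_of_le (pos 4 5 (by decide) (by decide) (by decide))
    · exact Nat.ble_eq_true_of_le (le_trans (by decide) (CB 5 (by decide)))
    · intro h
      refine Nat.ble_eq_true_of_le (le_trans ?_ (FA 4 (by decide) (φ 3)))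
      have hsub : ({3, 5} : Finset (Fin 16)) ⊆ (nW 4).filter (fun u => φ u = φ 3) := by
        intro x hx
        simp only [Finset.mem_insert, Finset.mem_singleton] at hx
        rcases hx with rfl | rfl
        · exact Finset.mem_filter.2 ⟨by decide, rfl⟩
        · exact Finset.mem_filter.2 ⟨by decide, h.symm⟩
      exact le_trans (by decide) (Finset.card_le_card hsub)

end Pool.Agent.TH352.SR
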