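import Mathlib
import Pool.Agent.TH352.SRUnique

namespace Pool.Agent.TH352.SR

section Field
variable {K : Type*} [Field K]

/-- Enough parameters: if the squares of `1, ..., 17` are distinct and nonzero and there is a
nonsquare, then one can choose `t` outside a set of at most 15 elements such that
`k (t - α) (β - t)` is not a square. -/
lemma exists_t (h17 : ∀ r ∈ Finset.Icc 1 17, ((r : ℕ) : K) ≠ 0)
    (hsq : ∀ r ∈ Finset.Icc 1 17, ∀ r' ∈ Finset.Icc 1 17, ((r : ℕ) : K) ^ 2 = ((r' : ℕ) : K) ^ 2 → r = r')
    (nu : K) (hnu : ¬ IsSquare nu) (α β k : K) (hαβ : α ≠ β) (hk : k ≠ 0)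
    (used : Finset K) (hused : used.card ≤ 15) :
    ∃ t, t ∉ used ∧ ¬ IsSquare (k * ((t - α) * (β - t))) := by
  classical
  have hnu0 : nu ≠ 0 := by rintro rfl; exact hnu (IsSquare.zero)
  let s : ℕ → K := fun r => nu * (r : K) ^ 2 / k
  have hs_inj : ∀ r ∈ Finset.Icc 1 17, ∀ r' ∈ Finset.Icc 1 17, s r = s r' → r = r' := by
    intro r hr r' hr' h
    apply hsq r hr r' hr'
    have h1 : nu * (r : K) ^ 2 = nu * (r' : K) ^ 2 := by
      have := congrArg (· * k) h
      simp only [s] at this
      rwa [div_mul_cancel₀ _ hk, div_mul_cancel₀ _ hk] at this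
    exact mul_left_cancel₀ hnu0 h1
  by_contra hcon
  push Not at hcon
  let t : ℕ → K := fun r => (α + s r * β) / (1 + s r)
  have ht : ∀ r ∈ Finset.Icc 1 17, 1 + s r ≠ 0 → t r ∈ used := by
    intro r hr h1
    by_contra hnot
    obtain ⟨z, hz⟩ := hcon (t r) hnot
    -- k (t-α)(β-t) = k s (β-t)^2 = nu r^2 (β - t)^2
    have hbt : β - t r = (β - α) / (1 + s r) := by
      simp only [t]; field_simp; ring
    have hta : t r - α = s r * (β - α) / (1 + s r) := by
      simp only [t]; field_simp; ring
    have hsk : k * s r = nu * (r : K) ^ 2 := by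
      simp only [s]; field_simp
    have hba : β - α ≠ 0 := sub_ne_zero.2 hαβ.symm
    have hr0 := h17 r hr
    apply hnu
    refine ⟨z * (1 + s r) / ((r : K) * (β - α)), ?_⟩
    have e1 : k * ((t r - α) * (β - t r)) = nu * (r : K) ^ 2 * ((β - α) / (1 + s r)) ^ 2 := by
      rw [hta, hbt]
      have : k * (s r * (β - α) / (1 + s r) * ((β - α) / (1 + s r))) =
        (k * s r) * ((β - α) / (1 + s r)) ^ 2 := by
        field_simp
      rw [this, hsk]
    rw [e1] at hz
    have e2 : z * (1 + s r) / ((r : K) * (β - α)) * (z * (1 + s r) / ((r : K) * (β - α))) =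
        (z * z) * (1 + s r) ^ 2 / ((r : K) * (β - α)) ^ 2 := by
      field_simp
    rw [e2, ← hz]
    field_simp
  -- count
  let g : ℕ → Option K := fun r => if 1 + s r = 0 then none else some (t r)
  have hmaps : Set.MapsTo g (Finset.Icc 1 17 : Finset ℕ) (insert none (used.map ⟨some, Option.some_injective K⟩) : Finset (Option K)) := by
    intro r hr
    have hr' : r ∈ Finset.Icc 1 17 := hr
    by_cases h1 : 1 + s r = 0
    · simp [g, h1]
    · simp only [g, h1, if_false, Finset.coe_insert, Set.mem_insert_iff, reduceCtorEq, false_or,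
        Finset.mem_coe, Finset.mem_map, Function.Embedding.coeFn_mk, Option.some.injEq,
        exists_eq_right]
      exact ht r hr' h1
  have hinj : Set.InjOn g (Finset.Icc 1 17 : Finset ℕ) := by
    intro r hr r' hr' h
    have hr1 : r ∈ Finset.Icc 1 17 := hr
    have hr2 : r' ∈ Finset.Icc 1 17 := hr'
    apply hs_inj r hr1 r' hr2
    by_cases h1 : 1 + s r = 0
    · by_cases h2 : 1 + s r' = 0
      · linear_combination h1 - h2
      · simp [g, h1, h2] at h
    · by_cases h2 : 1 + s r' = 0
      · simp [g, h1, h2] at h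
      · simp only [g, h1, h2, if_false, Option.some.injEq, t] at h
        rw [div_eq_div_iff h1 h2] at h
        have h3 : (s r - s r') * (β - α) = 0 := by linear_combination h
        rcases mul_eq_zero.1 h3 with h4 | h4
        · exact sub_eq_zero.1 h4
        · exact absurd (sub_eq_zero.1 h4).symm hαβ
  have hcard := Finset.card_le_card_of_injOn g hmaps hinj
  have h1 : (insert none (used.map ⟨some, Option.some_injective K⟩) : Finset (Option K)).card ≤ 16 := by
    refine le_trans (Finset.card_insert_le _ _) ?_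
    rw [Finset.card_map]; omega
  have h2 : (Finset.Icc 1 17 : Finset ℕ).card = 17 := by decide
  omega

/-- the cyclic product of the four cycle `0, u, w, 1`. -/
def DD (c : Fin 16 → K) (u w : Fin 16) : K :=
  (c u - c 0) * (c w - c u) * (c 1 - c w) * (c 0 - c 1)

def parF : Fin 16 → Fin 16 := ![0, 0, 0, 2, 3, 4, 2, 2, 2, 3, 3, 4, 4, 5, 5, 5]

lemma par_facts : ∀ v : Fin 16, 3 ≤ v.val → (parF v).val < v.val ∧
    ((isU v = true ∧ isW (parF v) = true ∧ isW v = false) ∨
      (isW v = true ∧ isU (parF v) = true ∧ isU v = false)) ∧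
    (∀ i : Fin 16, i.val < v.val → (isU i = true ∨ isW i = true) → adjB i v = true → i = parF v) := by
  decide

lemma ge2 : ∀ i : Fin 16, isU i = true ∨ isW i = true → 2 ≤ i.val := by decide

lemma exists_c (h17 : ∀ r ∈ Finset.Icc 1 17, ((r : ℕ) : K) ≠ 0)
    (hsq : ∀ r ∈ Finset.Icc 1 17, ∀ r' ∈ Finset.Icc 1 17, ((r : ℕ) : K) ^ 2 = ((r' : ℕ) : K) ^ 2 → r = r')
    (nu : K) (hnu : ¬ IsSquare nu) (m : ℕ) (hm2 : 2 ≤ m) (hm : m ≤ 16) :
    ∃ c : Fin 16 → K, (∀ i j : Fin 16, i.val < m → j.val < m → c i = c j → i = j) ∧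
      (∀ u w : Fin 16, isU u = true → isW w = true → adjB u w = true → u.val < m → w.val < m →
        ¬ IsSquare (DD c u w)) := by
  classical
  induction m, hm2 using Nat.le_induction with
  | base =>
    refine ⟨fun i => if i = 0 then 0 else 1, ?_, ?_⟩
    · intro i j hi hj h
      have h10 : (1 : K) ≠ 0 := one_ne_zero
      by_cases h1 : i = 0 <;> by_cases h2 : j = 0
      · rw [h1, h2]
      · simp [h1, h2] at h
      · simp [h1, h2] at h
      · apply Fin.ext
        have a1 : i.val ≠ 0 := fun h => h1 (Fin.ext h)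
        have a2 : j.val ≠ 0 := fun h => h2 (Fin.ext h)
        omega
    · intro u w hu hw _ hu2
      have := ge2 u (Or.inl hu)
      omega
  | succ m hm2 ih =>
    obtain ⟨c, hc1, hc2⟩ := ih (by omega)
    set v : Fin 16 := ⟨m, by omega⟩ with hv
    set used : Finset K := (Finset.univ.filter (fun i : Fin 16 => i.val < m)).image c with hus
    have hcard : used.card ≤ 15 := by
      refine le_trans Finset.card_image_le ?_
      have hss : (Finset.univ.filter (fun i : Fin 16 => i.val < m)) ⊆ Finset.univ.erase v := by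
        intro i hi
        simp only [Finset.mem_filter, Finset.mem_univ, true_and] at hi
        rw [Finset.mem_erase]
        refine ⟨fun h => ?_, Finset.mem_univ _⟩
        rw [h] at hi
        exact lt_irrefl _ hi
      refine le_trans (Finset.card_le_card hss) ?_
      rw [Finset.card_erase_of_mem (Finset.mem_univ _)]
      simp
    have mem_used : ∀ i : Fin 16, i.val < m → c i ∈ used := by
      intro i hi
      rw [hus]
      exact Finset.mem_image_of_mem c (by simp [hi])
    have hi0 : (0 : Fin 16).val < m := by simpa using (by omega : 0 < m)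
    have hi1 : (1 : Fin 16).val < m := by
      have : ((1 : Fin 16).val) = 1 := rfl
      omega
    have c01 : c 0 ≠ c 1 := fun h => absurd (hc1 0 1 hi0 hi1 h) (by decide)
    -- choose the new value
    have hnew : ∃ t, t ∉ used ∧ (3 ≤ m → ((isU v = true → ¬ IsSquare
        ((t - c 0) * (c (parF v) - t) * (c 1 - c (parF v)) * (c 0 - c 1))) ∧
        (isW v = true → ¬ IsSquare
        ((c (parF v) - c 0) * (t - c (parF v)) * (c 1 - t) * (c 0 - c 1))))) := by
      by_cases h3 : 3 ≤ m
      · obtain ⟨hlt, hcase, _⟩ := par_facts v h3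
        have hlt' : (parF v).val < m := hlt
        rcases hcase with ⟨hU, hpW, hWf⟩ | ⟨hW, hpU, hUf⟩
        · have hp2 := ge2 (parF v) (Or.inr hpW)
          have n0 : c (parF v) ≠ c 0 := by
            intro h
            have := hc1 _ _ hlt' hi0 h
            rw [this] at hp2; exact absurd hp2 (by decide)
          have n1 : c (parF v) ≠ c 1 := by
            intro h
            have := hc1 _ _ hlt' hi1 h
            rw [this] at hp2; exact absurd hp2 (by decide)
          obtain ⟨t, ht1, ht2⟩ := exists_t h17 hsq nu hnu (c 0) (c (parF v))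
            ((c 1 - c (parF v)) * (c 0 - c 1)) n0.symm
            (mul_ne_zero (sub_ne_zero.2 n1.symm) (sub_ne_zero.2 c01)) used hcard
          refine ⟨t, ht1, fun _ => ⟨fun _ hh => ht2 ?_, fun hh => ?_⟩⟩
          · convert hh using 1; ring
          · rw [hWf] at hh; exact absurd hh (by decide)
        · have hp2 := ge2 (parF v) (Or.inl hpU)
          have n0 : c (parF v) ≠ c 0 := by
            intro h
            have := hc1 _ _ hlt' hi0 h
            rw [this] at hp2; exact absurd hp2 (by decide)
          have n1 : c (parF v) ≠ c 1 := by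
            intro h
            have := hc1 _ _ hlt' hi1 h
            rw [this] at hp2; exact absurd hp2 (by decide)
          obtain ⟨t, ht1, ht2⟩ := exists_t h17 hsq nu hnu (c (parF v)) (c 1)
            ((c (parF v) - c 0) * (c 0 - c 1)) n1
            (mul_ne_zero (sub_ne_zero.2 n0) (sub_ne_zero.2 c01)) used hcard
          refine ⟨t, ht1, fun _ => ⟨fun hh => ?_, fun _ hh => ht2 ?_⟩⟩
          · rw [hUf] at hh; exact absurd hh (by decide)
          · convert hh using 1; ring
      · obtain ⟨t, ht1, _⟩ := exists_t h17 hsq nu hnu (c 0) (c 1) 1 c01 one_ne_zero used hcard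
        exact ⟨t, ht1, fun h => absurd h h3⟩
    obtain ⟨t, ht1, ht2⟩ := hnew
    refine ⟨Function.update c v t, ?_, ?_⟩
    · intro i j hi hj h
      by_cases e1 : i = v <;> by_cases e2 : j = v
      · rw [e1, e2]
      · rw [e1, Function.update_self, Function.update_of_ne e2] at h
        have hj' : j.val < m := by
          have : j.val ≠ m := fun h' => e2 (Fin.ext h')
          omega
        exact absurd (h ▸ mem_used j hj') ht1
      · rw [e2, Function.update_self, Function.update_of_ne e1] at h
        have hi' : i.val < m := by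
          have : i.val ≠ m := fun h' => e1 (Fin.ext h')
          omega
        exact absurd (h ▸ mem_used i hi') ht1
      · rw [Function.update_of_ne e1, Function.update_of_ne e2] at h
        have hj' : j.val < m := by
          have : j.val ≠ m := fun h' => e2 (Fin.ext h')
          omega
        have hi' : i.val < m := by
          have : i.val ≠ m := fun h' => e1 (Fin.ext h')
          omega
        exact hc1 i j hi' hj' h
    · intro u w hu hw huw hum hwm
      have v0 : (0 : Fin 16) ≠ v := by
        intro h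
        rw [← h] at hv
        have := congrArg Fin.val hv
        simp at this
        omega
      have v1 : (1 : Fin 16) ≠ v := by
        intro h
        have := congrArg Fin.val h
        have h1 : ((1 : Fin 16).val) = 1 := rfl
        rw [h1, hv] at this
        simp at this
        omega
      by_cases e1 : u = v
      · -- new vertex is u
        have hw' : w.val < m := by
          have : w.val ≠ m := by
            intro h'
            have : w = v := Fin.ext h'
            rw [this, ← e1, adjB_irrefl] at huw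
            exact Bool.noConfusion huw
          omega
        have h3 : 3 ≤ m := by
          have := ge2 w (Or.inr hw)
          omega
        have hpar : w = parF v := (par_facts v h3).2.2 w hw' (Or.inr hw) (by rw [adjB_symm, ← e1]; exact huw)
        have wv : w ≠ v := fun h => by rw [h] at hw'; exact lt_irrefl _ hw'
        have := (ht2 h3).1 (e1 ▸ hu)
        unfold DD
        rw [e1, Function.update_self, Function.update_of_ne v0, Function.update_of_ne v1,
          Function.update_of_ne wv]
        rw [hpar]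
        exact this
      · by_cases e2 : w = v
        · have hu' : u.val < m := by
            have : u.val ≠ m := fun h' => e1 (Fin.ext h')
            omega
          have h3 : 3 ≤ m := by
            have := ge2 u (Or.inl hu)
            omega
          have hpar : u = parF v := (par_facts v h3).2.2 u hu' (Or.inl hu) (by rw [← e2]; exact huw)
          have := (ht2 h3).2 (e2 ▸ hw)
          unfold DD
          rw [e2, Function.update_self, Function.update_of_ne v0, Function.update_of_ne v1,
            Function.update_of_ne e1]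
          rw [hpar]
          exact this
        · have hu' : u.val < m := by
            have : u.val ≠ m := fun h' => e1 (Fin.ext h')
            omega
          have hw' : w.val < m := by
            have : w.val ≠ m := fun h' => e2 (Fin.ext h')
            omega
          unfold DD
          rw [Function.update_of_ne v0, Function.update_of_ne v1, Function.update_of_ne e1,
            Function.update_of_ne e2]
          exact hc2 u w hu hw huw hu' hw'

set_option maxRecDepth 100000 in
set_option synthInstance.maxSize 4000 in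
set_option synthInstance.maxHeartbeats 400000 in
lemma cyc_cases : ∀ i0 i1 : Fin 16, adjB i0 i1 = true → ∀ i2 : Fin 16, adjB i1 i2 = true →
    ∀ i3 : Fin 16, adjB i2 i3 = true → adjB i3 i0 = true → i1 ≠ i3 → i2 ≠ i0 →
    has01 i0 i1 i2 i3 = true →
    (i0 = 0 ∧ i1 = 1 ∧ isW i2 = true ∧ isU i3 = true ∧ adjB i3 i2 = true) ∨
    (i0 = 1 ∧ i1 = 0 ∧ isU i2 = true ∧ isW i3 = true ∧ adjB i2 i3 = true) ∨
    (i1 = 0 ∧ i2 = 1 ∧ isW i3 = true ∧ isU i0 = true ∧ adjB i0 i3 = true) ∨
    (i1 = 1 ∧ i2 = 0 ∧ isU i3 = true ∧ isW i0 = true ∧ adjB i3 i0 = true) ∨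
    (i2 = 0 ∧ i3 = 1 ∧ isW i0 = true ∧ isU i1 = true ∧ adjB i1 i0 = true) ∨
    (i2 = 1 ∧ i3 = 0 ∧ isU i0 = true ∧ isW i1 = true ∧ adjB i0 i1 = true) ∨
    (i3 = 0 ∧ i0 = 1 ∧ isW i1 = true ∧ isU i2 = true ∧ adjB i2 i1 = true) ∨
    (i3 = 1 ∧ i0 = 0 ∧ isU i1 = true ∧ isW i2 = true ∧ adjB i1 i2 = true) := by
  decide +kernel

lemma good_of (c : Fin 16 → K) (h2 : (2 : K) ≠ 0) (hinj : Function.Injective c)
    (h : ∀ u w : Fin 16, isU u = true → isW w = true → adjB u w = true → ¬ IsSquare (DD c u w)) :
    Good c := by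
  refine ⟨hinj, h2, ?_⟩
  intro i0 i1 i2 i3 h01 h12 h23 h30 n1 n2 hh hsq
  rcases cyc_cases i0 i1 h01 i2 h12 i3 h23 h30 n1 n2 hh with
    ⟨e1, e2, k1, k2, k3⟩ | ⟨e1, e2, k1, k2, k3⟩ | ⟨e1, e2, k1, k2, k3⟩ | ⟨e1, e2, k1, k2, k3⟩ |
    ⟨e1, e2, k1, k2, k3⟩ | ⟨e1, e2, k1, k2, k3⟩ | ⟨e1, e2, k1, k2, k3⟩ | ⟨e1, e2, k1, k2, k3⟩
  · apply h i3 i2 k2 k1 k3
    convert hsq using 1; rw [e1, e2, DD]; ring
  · apply h i2 i3 k1 k2 k3
    convert hsq using 1; rw [e1, e2, DD]; ring
  · apply h i0 i3 k2 k1 k3
    convert hsq using 1; rw [e1, e2, DD]; ring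
  · apply h i3 i0 k1 k2 k3
    convert hsq using 1; rw [e1, e2, DD]; ring
  · apply h i1 i0 k2 k1 k3
    convert hsq using 1; rw [e1, e2, DD]; ring
  · apply h i0 i1 k1 k2 k3
    convert hsq using 1; rw [e1, e2, DD]; ring
  · apply h i2 i1 k2 k1 k3
    convert hsq using 1; rw [e1, e2, DD]; ring
  · apply h i1 i2 k1 k2 k3
    convert hsq using 1; rw [e1, e2, DD]

end Field

/-- Good weights exist over `ZMod p` for every prime `p > 40`. -/
theorem exists_good (p : ℕ) [hp : Fact p.Prime] (h40 : 40 < p) :
    ∃ c : Fin 16 → ZMod p, Good c := by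
  have cast_ne : ∀ n : ℕ, 0 < n → n < p → ((n : ℕ) : ZMod p) ≠ 0 := by
    intro n hn hnp h
    rw [ZMod.natCast_eq_zero_iff] at h
    exact absurd (Nat.le_of_dvd hn h) (by omega)
  have h2 : (2 : ZMod p) ≠ 0 := by
    have := cast_ne 2 (by norm_num) (by omega)
    simpa using this
  have h17 : ∀ r ∈ Finset.Icc 1 17, ((r : ℕ) : ZMod p) ≠ 0 := by
    intro r hr
    rw [Finset.mem_Icc] at hr
    exact cast_ne r (by omega) (by omega)
  have hsq : ∀ r ∈ Finset.Icc 1 17, ∀ r' ∈ Finset.Icc 1 17,
      ((r : ℕ) : ZMod p) ^ 2 = ((r' : ℕ) : ZMod p) ^ 2 → r = r' := by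
    intro r hr r' hr' h
    rw [Finset.mem_Icc] at hr hr'
    have h1 : (((r : ℕ) : ZMod p) - ((r' : ℕ) : ZMod p)) * (((r : ℕ) : ZMod p) + ((r' : ℕ) : ZMod p)) = 0 := by
      linear_combination h
    rcases mul_eq_zero.1 h1 with h3 | h3
    · rcases lt_trichotomy r r' with h4 | h4 | h4
      · exfalso
        apply cast_ne (r' - r) (by omega) (by omega)
        rw [Nat.cast_sub h4.le]
        linear_combination -h3
      · exact h4
      · exfalso
        apply cast_ne (r - r') (by omega) (by omega)
        rw [Nat.cast_sub h4.le]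
        exact h3
    · exfalso
      apply cast_ne (r + r') (by omega) (by omega)
      push_cast
      exact h3
  have hchar : ringChar (ZMod p) ≠ 2 := by
    rw [ZMod.ringChar_zmod_n]
    omega
  obtain ⟨nu, hnu⟩ := FiniteField.exists_nonsquare hchar
  obtain ⟨c, hc1, hc2⟩ := exists_c h17 hsq nu hnu 16 (by norm_num) le_rfl
  exact ⟨c, good_of c h2 (fun i j h => hc1 i j i.isLt j.isLt h)
    (fun u w hu hw huw => hc2 u w hu hw huw u.isLt w.isLt)⟩

end Pool.Agent.TH352.SR
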