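import Mathlib
import Pool.Agent.TH352.SRChoice

namespace Pool.Agent.TH352.SR

open Finset

variable {V : Type*} [Fintype V] [DecidableEq V] (G : SimpleGraph V) [DecidableRel G.Adj]

/-- Number of neighbours inside `B`. -/
def dg (B : Finset V) (a : V) : ℕ := (B.filter (fun b => G.Adj a b)).card

/-- Edges between two sets, counted as ordered pairs. -/
def eb (A B : Finset V) : ℕ := ∑ a ∈ A, dg G B a

lemma eb_symm (A B : Finset V) : eb G A B = eb G B A := by
  unfold eb dg
  have := Finset.sum_card_bipartiteAbove_eq_sum_card_bipartiteBelow (s := A) (t := B)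
    (r := fun a b => G.Adj a b)
  simp only [Finset.bipartiteAbove, Finset.bipartiteBelow] at this
  rw [this]
  apply Finset.sum_congr rfl
  intro b _
  congr 1
  apply Finset.filter_congr
  intro a _
  exact G.adj_comm a b

lemma dense_sub (k : ℕ) : ∀ (n : ℕ) (A B : Finset V), A.card + B.card = n →
    k * (A.card + B.card) < eb G A B →
    ∃ A' ⊆ A, ∃ B' ⊆ B, A'.Nonempty ∧ B'.Nonempty ∧ (∀ a ∈ A', k ≤ dg G B' a) ∧
      (∀ b ∈ B', k ≤ dg G A' b) := by
  intro n
  induction n with
  | zero =>
    intro A B hn h
    have hA : A = ∅ := Finset.card_eq_zero.1 (by omega)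
    rw [hA] at h
    simp [eb] at h
  | succ n ih =>
    intro A B hn h
    by_cases hA : ∀ a ∈ A, k ≤ dg G B a
    · by_cases hB : ∀ b ∈ B, k ≤ dg G A b
      · refine ⟨A, subset_rfl, B, subset_rfl, ?_, ?_, hA, hB⟩
        · rw [Finset.nonempty_iff_ne_empty]
          rintro rfl
          simp [eb] at h
        · rw [Finset.nonempty_iff_ne_empty]
          rintro rfl
          simp [eb, dg] at h
      · push Not at hB
        obtain ⟨b, hb, hb2⟩ := hB
        have hcard := Finset.card_erase_add_one hb
        have hsum : dg G A b + eb G (B.erase b) A = eb G B A :=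
          Finset.add_sum_erase B (fun b => dg G A b) hb
        have hlt : k * (A.card + (B.erase b).card) < eb G A (B.erase b) := by
          rw [eb_symm G A (B.erase b)]
          rw [eb_symm G A B] at h
          have : k * (A.card + B.card) = k * (A.card + (B.erase b).card) + k := by
            rw [← hcard]; ring
          omega
        obtain ⟨A', hA', B', hB', r⟩ := ih A (B.erase b) (by omega) hlt
        exact ⟨A', hA', B', hB'.trans (Finset.erase_subset _ _), r⟩
    · push Not at hA
      obtain ⟨a, ha, ha2⟩ := hA
      have hcard := Finset.card_erase_add_one ha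
      have hsum : dg G B a + eb G (A.erase a) B = eb G A B :=
        Finset.add_sum_erase A (fun a => dg G B a) ha
      have hlt : k * ((A.erase a).card + B.card) < eb G (A.erase a) B := by
        have : k * (A.card + B.card) = k * ((A.erase a).card + B.card) + k := by
          rw [← hcard]; ring
        omega
      obtain ⟨A', hA', B', hB', r⟩ := ih (A.erase a) B (by omega) hlt
      exact ⟨A', hA'.trans (Finset.erase_subset _ _), B', hB', r⟩

lemma adj_cases : ∀ i j : Fin 16, adjB i j = true →
    (i = 0 ∧ j = 1) ∨ (i = 1 ∧ j = 0) ∨ (i = 0 ∧ isU j = true) ∨ (isU i = true ∧ j = 0) ∨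
    (i = 1 ∧ isW j = true) ∨ (isW i = true ∧ j = 1) ∨ (isU i = true ∧ isW j = true) ∨
    (isW i = true ∧ isU j = true) := by decide

lemma embed_tree (A B : Finset V) (x y : V) (hxA : ∀ a ∈ A, G.Adj x a) (hyA : y ∉ A)
    (hA : A.Nonempty) (hxy : x ≠ y)
    (dA : ∀ a ∈ A, 16 ≤ dg G B a) (dB : ∀ b ∈ B, 16 ≤ dg G A b) (m : ℕ) (hm3 : 3 ≤ m) (hm : m ≤ 16) :
    ∃ f : Fin 16 → V, f 0 = x ∧ f 1 = y ∧
      (∀ i j : Fin 16, i.val < m → j.val < m → f i = f j → i = j) ∧
      (∀ i : Fin 16, i.val < m → isU i = true → f i ∈ A) ∧
      (∀ i : Fin 16, i.val < m → isW i = true → f i ∈ B) ∧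
      (∀ u w : Fin 16, isU u = true → isW w = true → adjB u w = true → u.val < m → w.val < m →
        G.Adj (f u) (f w)) := by
  induction m, hm3 using Nat.le_induction with
  | base =>
    obtain ⟨a, ha⟩ := hA
    have hxa : x ≠ a := (hxA a ha).ne
    have hya : y ≠ a := by rintro rfl; exact hyA ha
    refine ⟨fun i => if i = 0 then x else if i = 1 then y else a, ?_, ?_, ?_, ?_, ?_, ?_⟩
    · simp
    · simp
    · have key : ∀ i : Fin 16, i.val < 3 → i = 0 ∨ i = 1 ∨ i = 2 := by decide
      have n21 : (2 : Fin 16) ≠ 1 := by decide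
      have n20 : (2 : Fin 16) ≠ 0 := by decide
      have n10 : (1 : Fin 16) ≠ 0 := by decide
      intro i j hi hj h
      rcases key i hi with rfl | rfl | rfl <;> rcases key j hj with rfl | rfl | rfl <;>
        simp_all
    · intro i hi hU
      have key : ∀ i : Fin 16, isU i = true → i ≠ 0 ∧ i ≠ 1 := by decide
      simp [key i hU, ha]
    · intro i hi hW
      have key : ∀ i : Fin 16, isW i = true → ¬ i.val < 3 := by decide
      exact absurd hi (key i hW)
    · intro u w _ hw _ _ hw3
      have key : ∀ i : Fin 16, isW i = true → ¬ i.val < 3 := by decide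
      exact absurd hw3 (key w hw)
  | succ m hm3 ih =>
    obtain ⟨f, f0, f1, finj, fU, fW, fadj⟩ := ih (by omega)
    set v : Fin 16 := ⟨m, by omega⟩ with hv
    set used : Finset V := (Finset.univ.filter (fun i : Fin 16 => i.val < m)).image f with hus
    have hcard : used.card ≤ 15 := by
      refine le_trans Finset.card_image_le ?_
      have hss : (Finset.univ.filter (fun i : Fin 16 => i.val < m)) ⊆ Finset.univ.erase v := by
        intro i hi
        simp only [Finset.mem_filter, Finset.mem_univ, true_and] at hi
        rw [Finset.mem_erase]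
        refine ⟨fun h => ?_, Finset.mem_univ _⟩
        rw [h] at hi
        exact lt_irrefl _ hi
      refine le_trans (Finset.card_le_card hss) ?_
      rw [Finset.card_erase_of_mem (Finset.mem_univ _)]
      simp
    have mem_used : ∀ i : Fin 16, i.val < m → f i ∈ used := by
      intro i hi
      rw [hus]
      exact Finset.mem_image_of_mem f (by simp [hi])
    obtain ⟨hlt, hcase, _⟩ := par_facts v hm3
    have hlt' : (parF v).val < m := hlt
    have hnew : ∃ t, t ∉ used ∧ G.Adj (f (parF v)) t ∧ (isU v = true → t ∈ A) ∧
        (isW v = true → t ∈ B) := by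
      rcases hcase with ⟨hU, hpW, hWf⟩ | ⟨hW, hpU, hUf⟩
      · have hB' := dB _ (fW _ hlt' hpW)
        have : ∃ t ∈ A.filter (fun b => G.Adj (f (parF v)) b), t ∉ used := by
          by_contra hcon
          push Not at hcon
          have := Finset.card_le_card (fun t ht => hcon t ht : A.filter (fun b => G.Adj (f (parF v)) b) ⊆ used)
          unfold dg at hB'
          omega
        obtain ⟨t, ht, ht2⟩ := this
        rw [Finset.mem_filter] at ht
        exact ⟨t, ht2, ht.2, fun _ => ht.1, fun h => by rw [hWf] at h; exact absurd h (by decide)⟩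
      · have hB' := dA _ (fU _ hlt' hpU)
        have : ∃ t ∈ B.filter (fun b => G.Adj (f (parF v)) b), t ∉ used := by
          by_contra hcon
          push Not at hcon
          have := Finset.card_le_card (fun t ht => hcon t ht : B.filter (fun b => G.Adj (f (parF v)) b) ⊆ used)
          unfold dg at hB'
          omega
        obtain ⟨t, ht, ht2⟩ := this
        rw [Finset.mem_filter] at ht
        exact ⟨t, ht2, ht.2, fun h => by rw [hUf] at h; exact absurd h (by decide), fun _ => ht.1⟩
    obtain ⟨t, ht1, ht2, ht3, ht4⟩ := hnew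
    have v0 : (0 : Fin 16) ≠ v := by
      intro h
      have := congrArg Fin.val h
      rw [hv] at this
      simp at this
      omega
    have v1 : (1 : Fin 16) ≠ v := by
      intro h
      have := congrArg Fin.val h
      have h1 : ((1 : Fin 16).val) = 1 := rfl
      rw [h1, hv] at this
      simp at this
      omega
    have lt_of : ∀ i : Fin 16, i.val < m + 1 → i ≠ v → i.val < m := by
      intro i hi hne
      have : i.val ≠ m := fun h' => hne (Fin.ext h')
      omega
    refine ⟨Function.update f v t, ?_, ?_, ?_, ?_, ?_, ?_⟩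
    · rw [Function.update_of_ne v0, f0]
    · rw [Function.update_of_ne v1, f1]
    · intro i j hi hj h
      by_cases e1 : i = v <;> by_cases e2 : j = v
      · rw [e1, e2]
      · rw [e1, Function.update_self, Function.update_of_ne e2] at h
        exact absurd (h ▸ mem_used j (lt_of j hj e2)) ht1
      · rw [e2, Function.update_self, Function.update_of_ne e1] at h
        exact absurd (h ▸ mem_used i (lt_of i hi e1)) ht1
      · rw [Function.update_of_ne e1, Function.update_of_ne e2] at h
        exact finj i j (lt_of i hi e1) (lt_of j hj e2) h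
    · intro i hi hU
      by_cases e1 : i = v
      · rw [e1, Function.update_self]; exact ht3 (e1 ▸ hU)
      · rw [Function.update_of_ne e1]; exact fU i (lt_of i hi e1) hU
    · intro i hi hU
      by_cases e1 : i = v
      · rw [e1, Function.update_self]; exact ht4 (e1 ▸ hU)
      · rw [Function.update_of_ne e1]; exact fW i (lt_of i hi e1) hU
    · intro u w hu hw huw hum hwm
      by_cases e1 : u = v
      · have wv : w ≠ v := by
          rintro rfl
          rw [e1, adjB_irrefl] at huw
          exact Bool.noConfusion huw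
        have hpar : w = parF v := (par_facts v hm3).2.2 w (lt_of w hwm wv) (Or.inr hw)
          (by rw [adjB_symm, ← e1]; exact huw)
        rw [e1, Function.update_self, Function.update_of_ne wv, hpar]
        exact ht2.symm
      · by_cases e2 : w = v
        · have hpar : u = parF v := (par_facts v hm3).2.2 u (lt_of u hum e1) (Or.inl hu)
            (by rw [← e2]; exact huw)
          rw [e2, Function.update_self, Function.update_of_ne e1, hpar]
          exact ht2
        · rw [Function.update_of_ne e1, Function.update_of_ne e2]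
          exact fadj u w hu hw huw (lt_of u hum e1) (lt_of w hwm e2)

/-- An edge with a dense link contains the graph `FG`. -/
lemma contains_of_dense (x y : V) (hxy : G.Adj x y)
    (h : 16 * (((G.neighborFinset x).erase y).card + ((G.neighborFinset y).erase x).card) <
      eb G ((G.neighborFinset x).erase y) ((G.neighborFinset y).erase x)) :
    ¬ FG.Free G := by
  obtain ⟨A, hA, B, hB, hAn, hBn, dA, dB⟩ := dense_sub G 16 _ _ _ rfl h
  have hxA : ∀ a ∈ A, G.Adj x a := fun a ha => by
    have := hA ha
    rw [Finset.mem_erase, SimpleGraph.mem_neighborFinset] at this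
    exact this.2
  have hyB : ∀ b ∈ B, G.Adj y b := fun a ha => by
    have := hB ha
    rw [Finset.mem_erase, SimpleGraph.mem_neighborFinset] at this
    exact this.2
  have hyA : y ∉ A := fun hy => by
    have := hA hy
    rw [Finset.mem_erase] at this
    exact this.1 rfl
  obtain ⟨f, f0, f1, finj, fU, fW, fadj⟩ := embed_tree G A B x y hxA hyA hAn hxy.ne dA dB 16
    (by norm_num) le_rfl
  rw [SimpleGraph.not_free]
  refine ⟨⟨⟨f, ?_⟩, fun i j hij => finj i j i.isLt j.isLt hij⟩⟩
  intro i j hij
  have hij' : adjB i j = true := hij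
  rcases adj_cases i j hij' with ⟨h1, h2⟩ | ⟨h1, h2⟩ | ⟨h1, h2⟩ | ⟨h1, h2⟩ | ⟨h1, h2⟩ | ⟨h1, h2⟩ |
    ⟨h1, h2⟩ | ⟨h1, h2⟩
  · rw [h1, h2, f0, f1]; exact hxy
  · rw [h1, h2, f0, f1]; exact hxy.symm
  · rw [h1, f0]; exact hxA _ (fU j j.isLt h2)
  · rw [h2, f0]; exact (hxA _ (fU i i.isLt h1)).symm
  · rw [h1, f1]; exact hyB _ (fW j j.isLt h2)
  · rw [h2, f1]; exact (hyB _ (fW i i.isLt h1)).symm
  · exact fadj i j h1 h2 hij' i.isLt j.isLt
  · exact (fadj j i h2 h1 (by rw [adjB_symm]; exact hij') j.isLt i.isLt).symm

end Pool.Agent.TH352.SR
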