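import Mathlib
import Pool.Agent.TH352.SREmbed

namespace Pool.Agent.TH352.SR

open Finset

variable {V : Type*} [Fintype V] [DecidableEq V] (G : SimpleGraph V) [DecidableRel G.Adj]

/-- adjacency indicator -/
def al (x y : V) : ℝ := if G.Adj x y then 1 else 0

lemma al_symm (x y : V) : al G x y = al G y x := by
  unfold al
  simp [G.adj_comm]

lemma sum_al (x : V) : ∑ y, al G x y = (G.degree x : ℝ) := by
  unfold al
  rw [Finset.sum_boole, ← SimpleGraph.card_neighborFinset_eq_degree]
  congr 2
  ext y
  simp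

/-- Sum over the neighbourhoods. -/
lemma sum_link (x y : V) :
    (∑ a, ∑ b, al G x a * al G a b * al G y b) =
      ((∑ a ∈ G.neighborFinset x, dg G (G.neighborFinset y) a : ℕ) : ℝ) := by
  push_cast
  rw [← Finset.sum_filter_add_sum_filter_not Finset.univ (fun a => G.Adj x a)]
  have h2 : ∑ a ∈ univ.filter (fun a => ¬ G.Adj x a), ∑ b, al G x a * al G a b * al G y b = 0 := by
    apply Finset.sum_eq_zero
    intro a ha
    rw [Finset.mem_filter] at ha
    apply Finset.sum_eq_zero
    intro b _
    simp [al, ha.2]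
  rw [h2, add_zero]
  have h3 : univ.filter (fun a => G.Adj x a) = G.neighborFinset x := by
    ext a; simp
  rw [h3]
  apply Finset.sum_congr rfl
  intro a ha
  rw [SimpleGraph.mem_neighborFinset] at ha
  have : ∀ b, al G x a * al G a b * al G y b = if (G.Adj a b ∧ G.Adj y b) then 1 else 0 := by
    intro b
    unfold al
    by_cases h1 : G.Adj a b <;> by_cases h2 : G.Adj y b <;> simp [ha, h1, h2]
  rw [Finset.sum_congr rfl (fun b _ => this b), Finset.sum_boole]
  unfold dg
  congr 2
  ext b
  simp [and_comm]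

lemma link_le (x y : V) (hxy : G.Adj x y) :
    (∑ a ∈ G.neighborFinset x, dg G (G.neighborFinset y) a) ≤
      eb G ((G.neighborFinset x).erase y) ((G.neighborFinset y).erase x) + G.degree x + G.degree y := by
  have hy : y ∈ G.neighborFinset x := by rw [SimpleGraph.mem_neighborFinset]; exact hxy
  rw [← Finset.add_sum_erase _ _ hy]
  have h1 : dg G (G.neighborFinset y) y ≤ G.degree y := by
    unfold dg
    rw [← SimpleGraph.card_neighborFinset_eq_degree]
    exact Finset.card_filter_le _ _
  have h2 : ∀ a ∈ (G.neighborFinset x).erase y, dg G (G.neighborFinset y) a ≤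
      dg G ((G.neighborFinset y).erase x) a + 1 := by
    intro a _
    unfold dg
    have : (G.neighborFinset y).filter (fun b => G.Adj a b) ⊆
        insert x (((G.neighborFinset y).erase x).filter (fun b => G.Adj a b)) := by
      intro b hb
      rw [Finset.mem_filter] at hb
      rw [Finset.mem_insert, Finset.mem_filter, Finset.mem_erase]
      by_cases h : b = x
      · exact Or.inl h
      · exact Or.inr ⟨⟨h, hb.1⟩, hb.2⟩
    exact le_trans (Finset.card_le_card this) (Finset.card_insert_le _ _)
  have h3 := Finset.sum_le_sum h2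
  rw [Finset.sum_add_distrib, Finset.sum_const, smul_eq_mul, mul_one] at h3
  have h4 : ((G.neighborFinset x).erase y).card ≤ G.degree x := by
    rw [← SimpleGraph.card_neighborFinset_eq_degree]
    exact Finset.card_erase_le
  unfold eb
  omega

theorem upper_sq (hfree : FG.Free G) :
    2 * (G.edgeFinset.card : ℝ) ^ 2 ≤ 17 * (Fintype.card V : ℝ) ^ 3 := by
  set n : ℝ := (Fintype.card V : ℝ) with hn
  have hn0 : 0 ≤ n := Nat.cast_nonneg _
  set S : ℝ := ∑ x, (G.degree x : ℝ) ^ 2 with hS
  have hS0 : 0 ≤ S := Finset.sum_nonneg (fun x _ => sq_nonneg _)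
  -- darts
  have hd : ∀ x y, al G x y * (∑ a, ∑ b, al G x a * al G a b * al G y b) ≤
      al G x y * (17 * ((G.degree x : ℝ) + G.degree y)) := by
    intro x y
    by_cases hxy : G.Adj x y
    · have h1 : al G x y = 1 := by simp [al, hxy]
      rw [h1, one_mul, one_mul, sum_link]
      have h2 := link_le G x y hxy
      have h3 : eb G ((G.neighborFinset x).erase y) ((G.neighborFinset y).erase x) ≤
          16 * (((G.neighborFinset x).erase y).card + ((G.neighborFinset y).erase x).card) := by
        by_contra hcon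
        push Not at hcon
        exact contains_of_dense G x y hxy hcon hfree
      have h4 : ((G.neighborFinset x).erase y).card ≤ G.degree x := by
        rw [← SimpleGraph.card_neighborFinset_eq_degree]
        exact Finset.card_erase_le
      have h5 : ((G.neighborFinset y).erase x).card ≤ G.degree y := by
        rw [← SimpleGraph.card_neighborFinset_eq_degree]
        exact Finset.card_erase_le
      have h6 : (∑ a ∈ G.neighborFinset x, dg G (G.neighborFinset y) a) ≤
          17 * (G.degree x + G.degree y) := by omega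
      calc ((∑ a ∈ G.neighborFinset x, dg G (G.neighborFinset y) a : ℕ) : ℝ)
          ≤ ((17 * (G.degree x + G.degree y) : ℕ) : ℝ) := by exact_mod_cast h6
        _ = _ := by push_cast; ring
    · have h1 : al G x y = 0 := by simp [al, hxy]
      rw [h1, zero_mul, zero_mul]
  have hsum := Finset.sum_le_sum (fun x (_ : x ∈ univ) => Finset.sum_le_sum (fun y (_ : y ∈ univ) => hd x y))
  -- right hand side
  have hR : ∑ x, ∑ y, al G x y * (17 * ((G.degree x : ℝ) + G.degree y)) = 34 * S := by
    have e1 : ∑ x, ∑ y, al G x y * (17 * ((G.degree x : ℝ) + G.degree y)) =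
        17 * (∑ x, ∑ y, al G x y * G.degree x) + 17 * (∑ x, ∑ y, al G x y * G.degree y) := by
      rw [Finset.mul_sum, Finset.mul_sum, ← Finset.sum_add_distrib]
      apply Finset.sum_congr rfl
      intro x _
      rw [Finset.mul_sum, Finset.mul_sum, ← Finset.sum_add_distrib]
      apply Finset.sum_congr rfl
      intro y _
      ring
    have e2 : ∑ x, ∑ y, al G x y * (G.degree x : ℝ) = S := by
      rw [hS]
      apply Finset.sum_congr rfl
      intro x _
      rw [← Finset.sum_mul, sum_al]
      ring
    have e3 : ∑ x, ∑ y, al G x y * (G.degree y : ℝ) = S := by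
      rw [Finset.sum_comm, hS]
      apply Finset.sum_congr rfl
      intro y _
      rw [← Finset.sum_mul, Finset.sum_congr rfl (fun x _ => al_symm G x y), sum_al]
      ring
    rw [e1, e2, e3]; ring
  -- left hand side
  have hL : ∑ x, ∑ y, al G x y * (∑ a, ∑ b, al G x a * al G a b * al G y b) =
      ∑ x, ∑ b, (∑ a, al G x a * al G a b) ^ 2 := by
    apply Finset.sum_congr rfl
    intro x _
    have e1 : ∀ b, (∑ a, al G x a * al G a b) ^ 2 =
        ∑ y, ∑ a, al G x y * (al G x a * al G a b * al G y b) := by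
      intro b
      rw [sq, Finset.sum_mul_sum, Finset.sum_comm]
      apply Finset.sum_congr rfl
      intro y _
      apply Finset.sum_congr rfl
      intro a _
      ring
    rw [Finset.sum_congr rfl (fun b _ => e1 b), Finset.sum_comm]
    apply Finset.sum_congr rfl
    intro y _
    rw [Finset.mul_sum, Finset.sum_comm]
    apply Finset.sum_congr rfl
    intro a _
    rw [Finset.mul_sum]
  rw [hL, hR] at hsum
  -- Cauchy-Schwarz
  have hcs : S ^ 2 ≤ n ^ 2 * ∑ x, ∑ b, (∑ a, al G x a * al G a b) ^ 2 := by
    have h1 : S = ∑ p : V × V, (∑ a, al G p.1 a * al G a p.2) := by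
      rw [Fintype.sum_prod_type]
      have : ∀ x : V, ∑ b, ∑ a, al G x a * al G a b = ∑ a, al G x a * G.degree a := by
        intro x
        rw [Finset.sum_comm]
        apply Finset.sum_congr rfl
        intro a _
        rw [← Finset.mul_sum, sum_al]
      rw [Finset.sum_congr rfl (fun x _ => this x), Finset.sum_comm, hS]
      apply Finset.sum_congr rfl
      intro y _
      rw [← Finset.sum_mul, Finset.sum_congr rfl (fun x _ => al_symm G x y), sum_al]
      ring
    have h2 : ∑ x, ∑ b, (∑ a, al G x a * al G a b) ^ 2 =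
        ∑ p : V × V, (∑ a, al G p.1 a * al G a p.2) ^ 2 := by
      rw [Fintype.sum_prod_type]
    rw [h2]
    have h3 := sq_sum_le_card_mul_sum_sq (s := (univ : Finset (V × V)))
      (f := fun p => ∑ a, al G p.1 a * al G a p.2)
    rw [← h1, Finset.card_univ, Fintype.card_prod] at h3
    have h4 : ((Fintype.card V * Fintype.card V : ℕ) : ℝ) = n ^ 2 := by
      push_cast; ring
    rw [h4] at h3
    exact h3
  have hS2 : S ^ 2 ≤ n ^ 2 * (34 * S) := le_trans hcs (mul_le_mul_of_nonneg_left hsum (sq_nonneg n))
  have hS3 : S ≤ 34 * n ^ 2 := by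
    rcases hS0.eq_or_lt with h | h
    · rw [← h]; positivity
    · have : S * S ≤ (34 * n ^ 2) * S := by nlinarith
      exact le_of_mul_le_mul_right this h
  -- degrees
  have hdeg : (2 * (G.edgeFinset.card : ℝ)) ^ 2 ≤ n * S := by
    have h1 : (2 * (G.edgeFinset.card : ℝ)) = ∑ x, (G.degree x : ℝ) := by
      have := G.sum_degrees_eq_twice_card_edges
      have h2 : ((∑ x, G.degree x : ℕ) : ℝ) = ((2 * G.edgeFinset.card : ℕ) : ℝ) := by rw [this]
      push_cast at h2
      exact h2.symm
    rw [h1, hS, hn, ← Finset.card_univ]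
    exact sq_sum_le_card_mul_sum_sq
  have hfin : (2 * (G.edgeFinset.card : ℝ)) ^ 2 ≤ n * (34 * n ^ 2) :=
    le_trans hdeg (mul_le_mul_of_nonneg_left hS3 hn0)
  nlinarith

theorem upper_bound (n : ℕ) :
    (SimpleGraph.extremalNumber n FG : ℝ) ≤ 3 * (n : ℝ) ^ (3 / 2 : ℝ) := by
  classical
  have h0 : (0 : ℝ) ≤ 3 * (n : ℝ) ^ (3 / 2 : ℝ) := by positivity
  have key : (SimpleGraph.extremalNumber (Fintype.card (Fin n)) FG : ℝ) ≤ 3 * (n : ℝ) ^ (3 / 2 : ℝ) := by
    rw [SimpleGraph.extremalNumber_le_iff_of_nonneg FG h0]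
    intro G hdec hG
    have h1 := upper_sq G hG
    rw [Fintype.card_fin] at h1
    have h2 : ((n : ℝ) ^ (3 / 2 : ℝ)) ^ 2 = (n : ℝ) ^ 3 := by
      rw [← Real.rpow_natCast, ← Real.rpow_mul (Nat.cast_nonneg n), ← Real.rpow_natCast]
      norm_num
    have h3 : 0 ≤ (n : ℝ) ^ (3 / 2 : ℝ) := by positivity
    have h4 : ((G.edgeFinset.card : ℝ)) ^ 2 ≤ (3 * (n : ℝ) ^ (3 / 2 : ℝ)) ^ 2 := by
      rw [mul_pow, h2]
      have : (0 : ℝ) ≤ (n : ℝ) ^ 3 := by positivity
      nlinarith
    exact le_of_sq_le_sq h4 h0
  rwa [Fintype.card_fin] at key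

end Pool.Agent.TH352.SR
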