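import Mathlib
import Pool.Agent.TH352.SRUpper
import Pool.Agent.TH352.SRAssemble

namespace Pool.Agent.TH352.SR

open Finset

/-- A bijective endomorphism of a finite graph is an automorphism. -/
lemma auto_of_hom {V0 : Type*} [Finite V0] (F : SimpleGraph V0) (σ : Equiv.Perm V0)
    (h : ∀ v w, F.Adj v w → F.Adj (σ v) (σ w)) (v w : V0) : F.Adj v w ↔ F.Adj (σ v) (σ w) := by
  refine ⟨h v w, fun hvw => ?_⟩
  let g : F.edgeSet → F.edgeSet := SimpleGraph.Hom.mapEdgeSet (⟨σ, fun {a b} hab => h a b hab⟩ : F →g F)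
  have hg : Function.Injective g := SimpleGraph.Hom.mapEdgeSet.injective _ σ.injective
  have hgs : Function.Surjective g := Finite.injective_iff_surjective.1 hg
  obtain ⟨⟨e, he⟩, hge⟩ := hgs ⟨s(σ v, σ w), hvw⟩
  have h1 : Sym2.map σ e = s(σ v, σ w) := congrArg Subtype.val hge
  have h2 : Sym2.map σ e = Sym2.map σ s(v, w) := by rw [h1]; rfl
  have h3 := Sym2.map.injective σ.injective h2
  rw [h3] at he
  exact he

theorem fam {K : Type*} [Field K] {c : Fin 16 → K} (hc : Good c) {W : Type*}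
    (e : (Fin 16 × K × K) ↪ W) :
    Fam FG (fun (s : K × K × K) (i : Fin 16) => e (pt c (s.1, s.2.1) s.2.2 i)) := by
  have hptinj : ∀ (s s' : K × K × K) (i j : Fin 16), i ≠ j →
      pt c (s.1, s.2.1) s.2.2 i = pt c (s'.1, s'.2.1) s'.2.2 i →
      pt c (s.1, s.2.1) s.2.2 j = pt c (s'.1, s'.2.1) s'.2.2 j → s = s' := by
    rintro ⟨g1, g2, th⟩ ⟨g1', g2', th'⟩ i j hij h1 h2
    simp only [pt, Prod.mk.injEq, true_and] at h1 h2
    have hcij : c j - c i ≠ 0 := sub_ne_zero.2 (fun h => hij (hc.inj h).symm)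
    have e1 : (c j - c i) * (th - th') = 0 := by linear_combination h2.1 - h1.1
    have e2 : th = th' := sub_eq_zero.1 ((mul_eq_zero.1 e1).resolve_left hcij)
    subst e2
    have e3 : g1 = g1' := by linear_combination h1.1
    have e4 : g2 = g2' := by linear_combination h1.2
    rw [e3, e4]
  refine ⟨?_, ?_, ?_⟩
  · intro s i j hij
    have := e.injective hij
    exact congrArg Prod.fst this
  · intro s s' i j i' j' hij hij' h
    rw [Sym2.eq_iff] at h
    rcases h with ⟨h1, h2⟩ | ⟨h1, h2⟩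
    · have h1' := e.injective h1
      have h2' := e.injective h2
      have ei : i = i' := congrArg Prod.fst h1'
      have ej : j = j' := congrArg Prod.fst h2'
      subst ei ej
      exact hptinj s s' i j hij.ne h1' h2'
    · have h1' := e.injective h1
      have h2' := e.injective h2
      have ei : i = j' := congrArg Prod.fst h1'
      have ej : j = i' := congrArg Prod.fst h2'
      subst ei ej
      exact hptinj s s' i j hij.ne h1' h2'
  · intro f hf hadj
    -- every vertex is in the range of e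
    have hnb : ∀ v : Fin 16, ∃ w, FG.Adj v w := by
      have : ∀ v : Fin 16, ∃ w, adjB v w = true := by decide
      exact this
    have hran : ∀ v, ∃ x, e x = f v := by
      intro v
      obtain ⟨w, hw⟩ := hnb v
      obtain ⟨s, i, j, _, hi, _⟩ := hadj v w hw
      exact ⟨_, hi⟩
    choose f0 hf0 using hran
    have hf0inj : Function.Injective f0 := by
      intro v w h
      apply hf
      rw [← hf0 v, ← hf0 w, h]
    have hadj0 : ∀ v w, adjB v w = true → (HG FG c).Adj (f0 v) (f0 w) := by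
      intro v w hvw
      obtain ⟨s, i, j, hij, hi, hj⟩ := hadj v w hvw
      rw [← hf0 v] at hi
      rw [← hf0 w] at hj
      have hi' := e.injective hi
      have hj' := e.injective hj
      rw [← hi', ← hj']
      refine ⟨hij, ?_⟩
      simp only [pt]
      ring
    obtain ⟨g, θ, hg⟩ := unique_copy hc f0 hf0inj hadj0
    have hφinj : Function.Injective (fun v => (f0 v).1) := by
      intro v w h
      apply hf0inj
      rw [hg v, hg w]
      have : (f0 v).1 = (f0 w).1 := h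
      rw [this]
    let σ : Equiv.Perm (Fin 16) := Equiv.ofBijective (fun v => (f0 v).1)
      (Finite.injective_iff_bijective.1 hφinj)
    have hσ : ∀ v, σ v = (f0 v).1 := fun v => rfl
    refine ⟨(g.1, g.2, θ), σ, ?_, ?_⟩
    · apply auto_of_hom
      intro v w hvw
      exact (hadj0 v w hvw).1
    · intro v
      rw [← hf0 v]
      congr 1
      exact hg v

/-- Choice of the prime. -/
lemma choose_prime (n : ℕ) (hn : 102400 ≤ n) :
    ∃ p : ℕ, p.Prime ∧ 40 < p ∧ 16 * p ^ 2 ≤ n ∧ (n : ℝ) ^ (3 / 2 : ℝ) / 512 ≤ (p : ℝ) ^ 3 := by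
  set m := Nat.sqrt (n / 64) with hm
  have hm40 : 40 ≤ m := by
    rw [hm, Nat.le_sqrt]
    omega
  obtain ⟨p, hp, hp1, hp2⟩ := Nat.exists_prime_lt_and_le_two_mul m (by omega)
  have h1 : m * m ≤ n / 64 := Nat.sqrt_le (n / 64)
  have h2 : n / 64 < (m + 1) * (m + 1) := Nat.lt_succ_sqrt (n / 64)
  refine ⟨p, hp, by omega, ?_, ?_⟩
  · have h3 : 64 * (m * m) ≤ n := by
      have := Nat.div_mul_le_self n 64
      nlinarith
    nlinarith
  · have h4 : n ≤ 64 * (p * p) := by
      have h5 : n / 64 + 1 ≤ (m + 1) * (m + 1) := h2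
      have h6 : (m + 1) * (m + 1) ≤ p * p := Nat.mul_le_mul hp1 hp1
      have h7 := Nat.lt_div_mul_add (a := n) (b := 64) (by norm_num)
      omega
    have h5 : (n : ℝ) ≤ (8 * (p : ℝ)) ^ 2 := by
      have : (n : ℝ) ≤ ((64 * (p * p) : ℕ) : ℝ) := by exact_mod_cast h4
      push_cast at this
      nlinarith
    have h6 : (n : ℝ) ^ (3 / 2 : ℝ) ≤ ((8 * (p : ℝ)) ^ 2) ^ (3 / 2 : ℝ) :=
      Real.rpow_le_rpow (Nat.cast_nonneg n) h5 (by norm_num)
    have h7 : ((8 * (p : ℝ)) ^ 2) ^ (3 / 2 : ℝ) = (8 * (p : ℝ)) ^ 3 := by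
      rw [← Real.rpow_natCast, ← Real.rpow_mul (by positivity), ← Real.rpow_natCast]
      norm_num
    rw [h7] at h6
    have : (8 * (p : ℝ)) ^ 3 = 512 * (p : ℝ) ^ 3 := by ring
    rw [this] at h6
    linarith

lemma exists_emb (p n : ℕ) [Fact p.Prime] (h : 16 * p ^ 2 ≤ n) :
    Nonempty ((Fin 16 × ZMod p × ZMod p) ↪ Fin n) := by
  apply Function.Embedding.nonempty_of_card_le
  rw [Fintype.card_prod, Fintype.card_prod, Fintype.card_fin, Fintype.card_fin, ZMod.card]
  calc 16 * (p * p) = 16 * p ^ 2 := by ring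
    _ ≤ n := h

theorem lower_bound (n : ℕ) (hn : 102400 ≤ n) :
    1 / 512 * (n : ℝ) ^ (3 / 2 : ℝ) ≤ (SimpleGraph.extremalNumber n FG : ℝ) := by
  classical
  obtain ⟨p, hp, h40, hpn, hpow⟩ := choose_prime n hn
  have : Fact p.Prime := ⟨hp⟩
  obtain ⟨c, hc⟩ := exists_good p h40
  obtain ⟨e⟩ := exists_emb p n hpn
  have hF := fam hc e
  have h01 : FG.Adj 0 1 := by decide
  have hfree := edgeG_free hF h01 0 1 2 (by decide) (by decide) (by decide)
  have h1 := SimpleGraph.card_edgeFinset_le_extremalNumber hfree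
  have h2 := edgeG_card hF h01
  rw [Fintype.card_fin] at h1
  rw [Fintype.card_prod, Fintype.card_prod, ZMod.card] at h2
  have h3 : p ^ 3 ≤ SimpleGraph.extremalNumber n FG := by
    calc p ^ 3 = p * (p * p) := by ring
      _ ≤ _ := h2
      _ ≤ _ := h1
  have h4 : (p : ℝ) ^ 3 ≤ (SimpleGraph.extremalNumber n FG : ℝ) := by exact_mod_cast h3
  linarith

theorem counterexample (n : ℕ) (hn : 102400 ≤ n) :
    ∃ (H : SimpleGraph (Fin n)) (𝓕 : Finset H.Subgraph),
      𝓕.card = ⌈1 / 512 * (n : ℝ) ^ (3 / 2 : ℝ)⌉₊ ∧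
      (∀ S ∈ 𝓕, ∀ S' ∈ 𝓕, S ≠ S' → Disjoint S.edgeSet S'.edgeSet) ∧
      (⋃ S ∈ 𝓕, S.edgeSet) = H.edgeSet ∧
      ∀ S : H.Subgraph, S ∈ 𝓕 ↔ Nonempty (FG ≃g S.coe) := by
  classical
  obtain ⟨p, hp, h40, hpn, hpow⟩ := choose_prime n hn
  have : Fact p.Prime := ⟨hp⟩
  obtain ⟨c, hc⟩ := exists_good p h40
  obtain ⟨e⟩ := exists_emb p n hpn
  have hF := fam hc e
  have hle : ⌈1 / 512 * (n : ℝ) ^ (3 / 2 : ℝ)⌉₊ ≤
      (Finset.univ : Finset (ZMod p × ZMod p × ZMod p)).card := by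
    rw [Finset.card_univ, Fintype.card_prod, Fintype.card_prod, ZMod.card, Nat.ceil_le]
    push_cast
    have : (p : ℝ) * ((p : ℝ) * (p : ℝ)) = (p : ℝ) ^ 3 := by ring
    rw [this]
    linarith
  obtain ⟨Sel, _, hSel⟩ := Finset.exists_subset_card_eq hle
  obtain ⟨𝓕, h1, h2, h3, h4⟩ := assemble hF Sel 0 1 (by decide)
  exact ⟨unionG hF Sel, 𝓕, by rw [h1, hSel], h2, h3, h4⟩

end Pool.Agent.TH352.SR
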