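import Mathlib

/-!
Core computations for a norm (p = 1) or p-norm (0 < p < 1) on the space of p-summable sequences
whose unit vector basis is 1-almost-greedy but not 1-semi-greedy.
-/

open scoped BigOperators

namespace Pool.Agent.TH352.AG

variable {𝕜 : Type*} [RCLike 𝕜] {p : ℝ}

/-- `v p z = ‖z‖ ^ p`. -/
noncomputable def v (p : ℝ) (z : 𝕜) : ℝ := ‖z‖ ^ p

lemma v_nonneg (z : 𝕜) : 0 ≤ v p z := Real.rpow_nonneg (norm_nonneg _) _

lemma v_zero (hp : 0 < p) : v p (0 : 𝕜) = 0 := by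
  simp [v, Real.zero_rpow hp.ne']

lemma v_neg (z : 𝕜) : v p (-z) = v p z := by simp [v]

lemma v_mul (a z : 𝕜) : v p (a * z) = v p a * v p z := by
  simp only [v, norm_mul]
  exact Real.mul_rpow (norm_nonneg _) (norm_nonneg _)

lemma v_mono (hp : 0 < p) {z w : 𝕜} (h : ‖z‖ ≤ ‖w‖) : v p z ≤ v p w :=
  Real.rpow_le_rpow (norm_nonneg _) h hp.le

lemma v_add (hp : 0 < p) (hp1 : p ≤ 1) (z w : 𝕜) : v p (z + w) ≤ v p z + v p w := by
  refine (Real.rpow_le_rpow (norm_nonneg _) (norm_add_le z w) hp.le).trans ?_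
  exact Real.rpow_add_le_add_rpow (norm_nonneg _) (norm_nonneg _) hp.le hp1

lemma v_sub (hp : 0 < p) (hp1 : p ≤ 1) (z w : 𝕜) : v p (z - w) ≤ v p z + v p w := by
  rw [sub_eq_add_neg, ← v_neg w]
  exact v_add hp hp1 z (-w)

lemma v_eq_zero (hp : 0 < p) {z : 𝕜} (h : v p z = 0) : z = 0 := by
  have := (Real.rpow_eq_zero (norm_nonneg z) hp.ne').1 h
  simpa using this

/-- Summability of `‖x i‖ ^ p`. -/
def Sm (p : ℝ) (x : ℕ → 𝕜) : Prop := Summable fun i => v p (x i)

lemma Sm.add (hp : 0 < p) (hp1 : p ≤ 1) {x y : ℕ → 𝕜} (hx : Sm p x) (hy : Sm p y) :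
    Sm p (x + y) :=
  Summable.of_nonneg_of_le (fun _ => v_nonneg _) (fun i => v_add hp hp1 (x i) (y i))
    (Summable.add hx hy)

lemma Sm.smul (a : 𝕜) {x : ℕ → 𝕜} (hx : Sm p x) : Sm p (a • x) := by
  have : (fun i => v p ((a • x) i)) = fun i => v p a * v p (x i) := by
    funext i; simp [v_mul]
  unfold Sm
  rw [this]
  exact Summable.mul_left _ hx

lemma Sm.zero (hp : 0 < p) : Sm p (0 : ℕ → 𝕜) := by
  have : (fun i : ℕ => v p ((0 : ℕ → 𝕜) i)) = fun _ => 0 := by
    funext i; simp [v_zero hp]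
  unfold Sm
  rw [this]
  exact summable_zero

lemma Sm.neg {x : ℕ → 𝕜} (hx : Sm p x) : Sm p (-x) := by
  have : (fun i => v p ((-x) i)) = fun i => v p (x i) := by
    funext i; simp [v_neg]
  unfold Sm
  rw [this]
  exact hx

/-- `T x = ∑ ‖x i‖ ^ p`. -/
noncomputable def T (p : ℝ) (x : ℕ → 𝕜) : ℝ := ∑' i, v p (x i)

/-- `M x = sup ‖x i‖ ^ p`. -/
noncomputable def M (p : ℝ) (x : ℕ → 𝕜) : ℝ := ⨆ i, v p (x i)

/-- First term of the gauge. -/
noncomputable def G1 (p : ℝ) (x : ℕ → 𝕜) : ℝ :=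
  T p x - v p (x 0) - v p (x 1) + v p (x 0 - x 1) + M p x

/-- Second term of the gauge. -/
noncomputable def G2 (p : ℝ) (x : ℕ → 𝕜) : ℝ :=
  T p x + max (v p (x 0)) (v p (x 1))

/-- The gauge. -/
noncomputable def G (p : ℝ) (x : ℕ → 𝕜) : ℝ := max (G1 p x) (G2 p x)

lemma T_nonneg (x : ℕ → 𝕜) : 0 ≤ T p x := tsum_nonneg fun _ => v_nonneg _

lemma le_T {x : ℕ → 𝕜} (hx : Sm p x) (i : ℕ) : v p (x i) ≤ T p x :=
  hx.le_tsum i fun _ _ => v_nonneg _

lemma bddAbove {x : ℕ → 𝕜} (hx : Sm p x) : BddAbove (Set.range fun i => v p (x i)) :=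
  ⟨T p x, by rintro _ ⟨i, rfl⟩; exact le_T hx i⟩

lemma le_M {x : ℕ → 𝕜} (hx : Sm p x) (i : ℕ) : v p (x i) ≤ M p x := le_ciSup (bddAbove hx) i

lemma M_le {x : ℕ → 𝕜} {c : ℝ} (h : ∀ i, v p (x i) ≤ c) : M p x ≤ c := ciSup_le h

lemma M_nonneg {x : ℕ → 𝕜} (hx : Sm p x) : 0 ≤ M p x := (v_nonneg _).trans (le_M hx 0)

lemma M_le_T {x : ℕ → 𝕜} (hx : Sm p x) : M p x ≤ T p x := M_le (le_T hx)

lemma T_add (hp : 0 < p) (hp1 : p ≤ 1) {x y : ℕ → 𝕜} (hx : Sm p x) (hy : Sm p y) :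
    T p (x + y) ≤ T p x + T p y := by
  have h := (hx.add hp hp1 hy)
  unfold T
  rw [← Summable.tsum_add hx hy]
  exact Summable.tsum_le_tsum (fun i => v_add hp hp1 (x i) (y i)) h (Summable.add hx hy)

/-- `T x` minus the first two terms is the tail sum. -/
lemma T_split {x : ℕ → 𝕜} (hx : Sm p x) :
    T p x = v p (x 0) + v p (x 1) + ∑' i, v p (x (i + 2)) := by
  have := hx.sum_add_tsum_nat_add 2
  simp only [Finset.sum_range_succ, Finset.sum_range_zero, zero_add] at this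
  unfold T
  linarith

lemma tail_add (hp : 0 < p) (hp1 : p ≤ 1) {x y : ℕ → 𝕜} (hx : Sm p x) (hy : Sm p y) :
    ∑' i, v p ((x + y) (i + 2)) ≤ ∑' i, v p (x (i + 2)) + ∑' i, v p (y (i + 2)) := by
  have hx2 : Summable fun i => v p (x (i + 2)) := (summable_nat_add_iff 2).2 hx
  have hy2 : Summable fun i => v p (y (i + 2)) := (summable_nat_add_iff 2).2 hy
  have h2 : Summable fun i => v p ((x + y) (i + 2)) :=
    (summable_nat_add_iff (f := fun i => v p ((x + y) i)) 2).2 (hx.add hp hp1 hy)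
  rw [← hx2.tsum_add hy2]
  exact Summable.tsum_le_tsum (fun i => v_add hp hp1 (x (i + 2)) (y (i + 2))) h2 (hx2.add hy2)

lemma M_add (hp : 0 < p) (hp1 : p ≤ 1) {x y : ℕ → 𝕜} (hx : Sm p x) (hy : Sm p y) :
    M p (x + y) ≤ M p x + M p y :=
  M_le fun i => (v_add hp hp1 (x i) (y i)).trans (add_le_add (le_M hx i) (le_M hy i))

lemma G1_eq {x : ℕ → 𝕜} (hx : Sm p x) :
    G1 p x = ∑' i, v p (x (i + 2)) + v p (x 0 - x 1) + M p x := by
  unfold G1
  rw [T_split hx]
  ring

lemma G_add (hp : 0 < p) (hp1 : p ≤ 1) {x y : ℕ → 𝕜} (hx : Sm p x) (hy : Sm p y) :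
    G p (x + y) ≤ G p x + G p y := by
  have hxy := hx.add hp hp1 hy
  have h1x : G1 p x ≤ G p x := le_max_left _ _
  have h2x : G2 p x ≤ G p x := le_max_right _ _
  have h1y : G1 p y ≤ G p y := le_max_left _ _
  have h2y : G2 p y ≤ G p y := le_max_right _ _
  refine max_le ?_ ?_
  · refine le_trans ?_ (add_le_add h1x h1y)
    rw [G1_eq hx, G1_eq hy, G1_eq hxy]
    have a1 := tail_add hp hp1 hx hy
    have a2 := M_add hp hp1 hx hy
    have a3 : v p ((x + y) 0 - (x + y) 1) ≤ v p (x 0 - x 1) + v p (y 0 - y 1) := by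
      have : (x + y) 0 - (x + y) 1 = (x 0 - x 1) + (y 0 - y 1) := by
        simp only [Pi.add_apply]; ring
      rw [this]
      exact v_add hp hp1 _ _
    linarith
  · refine le_trans ?_ (add_le_add h2x h2y)
    unfold G2
    have a1 := T_add hp hp1 hx hy
    have a2 : max (v p ((x + y) 0)) (v p ((x + y) 1)) ≤
        max (v p (x 0)) (v p (x 1)) + max (v p (y 0)) (v p (y 1)) := by
      refine max_le ?_ ?_
      · exact (v_add hp hp1 (x 0) (y 0)).trans (add_le_add (le_max_left _ _) (le_max_left _ _))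
      · exact (v_add hp hp1 (x 1) (y 1)).trans (add_le_add (le_max_right _ _) (le_max_right _ _))
    linarith

lemma G_neg (x : ℕ → 𝕜) : G p (-x) = G p x := by
  have h : ∀ i, v p ((-x) i) = v p (x i) := fun i => v_neg (x i)
  have h01 : v p ((-x) 0 - (-x) 1) = v p (x 0 - x 1) := by
    have : (-x) 0 - (-x) 1 = -(x 0 - x 1) := by simp only [Pi.neg_apply]; ring
    rw [this, v_neg]
  unfold G G1 G2 T M
  simp only [h, h01]

lemma G_smul (a : 𝕜) (x : ℕ → 𝕜) : G p (a • x) = v p a * G p x := by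
  have h : ∀ i, v p ((a • x) i) = v p a * v p (x i) := fun i => by
    simp [v_mul]
  have h01 : v p ((a • x) 0 - (a • x) 1) = v p a * v p (x 0 - x 1) := by
    rw [← v_mul, Pi.smul_apply, Pi.smul_apply, smul_eq_mul, smul_eq_mul, mul_sub]
  have hT : T p (a • x) = v p a * T p x := by
    unfold T
    simp only [h]
    exact tsum_mul_left
  have hM : M p (a • x) = v p a * M p x := by
    unfold M
    simp only [h]
    exact (Real.mul_iSup_of_nonneg (v_nonneg a) _).symm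
  unfold G
  rw [mul_max_of_nonneg _ _ (v_nonneg a)]
  have e1 : G1 p (a • x) = v p a * G1 p x := by
    unfold G1
    rw [hT, hM, h01, h 0, h 1]
    ring
  have e2 : G2 p (a • x) = v p a * G2 p x := by
    unfold G2
    rw [hT, h 0, h 1, mul_add, mul_max_of_nonneg _ _ (v_nonneg a)]
  rw [e1, e2]

lemma T_le_G (x : ℕ → 𝕜) : T p x ≤ G p x := by
  refine le_trans ?_ (le_max_right _ _)
  unfold G2
  have : 0 ≤ max (v p (x 0)) (v p (x 1)) := (v_nonneg _).trans (le_max_left _ _)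
  linarith

lemma G_le_T (hp : 0 < p) (hp1 : p ≤ 1) {x : ℕ → 𝕜} (hx : Sm p x) : G p x ≤ 2 * T p x := by
  refine max_le ?_ ?_
  · unfold G1
    have := v_sub hp hp1 (x 0) (x 1)
    have := M_le_T hx
    linarith
  · unfold G2
    have : max (v p (x 0)) (v p (x 1)) ≤ T p x := max_le (le_T hx 0) (le_T hx 1)
    linarith

lemma G_nonneg (x : ℕ → 𝕜) : 0 ≤ G p x := (T_nonneg x).trans (T_le_G x)

lemma G_zero (hp : 0 < p) (hp1 : p ≤ 1) : G p (0 : ℕ → 𝕜) = 0 := by
  apply le_antisymm _ (G_nonneg _)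
  refine (G_le_T hp hp1 (Sm.zero hp)).trans ?_
  have : T p (0 : ℕ → 𝕜) = 0 := by
    unfold T
    simp [v_zero hp]
  rw [this]; simp

lemma eq_zero_of_G (hp : 0 < p) {x : ℕ → 𝕜} (hx : Sm p x) (h : G p x = 0) : x = 0 := by
  funext i
  apply v_eq_zero hp
  apply le_antisymm _ (v_nonneg _)
  calc v p (x i) ≤ T p x := le_T hx i
    _ ≤ G p x := T_le_G x
    _ = 0 := h

/-- Completeness of the space of p-summable sequences for `T`. -/
lemma complete_T (hp : 0 < p) (hp1 : p ≤ 1) (u : ℕ → ℕ → 𝕜) (hu : ∀ n, Sm p (u n))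
    (hc : ∀ ε > 0, ∃ N, ∀ m ≥ N, ∀ n ≥ N, T p (u m - u n) < ε) :
    ∃ x : ℕ → 𝕜, Sm p x ∧ ∀ ε > 0, ∃ N, ∀ n ≥ N, T p (u n - x) < ε := by
  have hsub : ∀ m n, Sm p (u m - u n) := fun m n => by
    rw [sub_eq_add_neg]; exact (hu m).add hp hp1 (hu n).neg
  have hcoord : ∀ i, CauchySeq fun n => u n i := by
    intro i
    rw [Metric.cauchySeq_iff]
    intro ε hε
    obtain ⟨N, hN⟩ := hc (ε ^ p) (Real.rpow_pos_of_pos hε p)
    refine ⟨N, fun m hm n hn => ?_⟩
    have h1 : v p ((u m - u n) i) < ε ^ p := (le_T (hsub m n) i).trans_lt (hN m hm n hn)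
    rw [dist_eq_norm]
    have h2 : ‖u m i - u n i‖ ^ p < ε ^ p := h1
    exact (Real.rpow_lt_rpow_iff (norm_nonneg _) hε.le hp).1 h2
  choose x hx using fun i => cauchySeq_tendsto_of_complete (hcoord i)
  have key : ∀ ε > 0, ∃ N, ∀ n ≥ N, ∀ s : Finset ℕ, ∑ i ∈ s, v p ((u n - x) i) ≤ ε := by
    intro ε hε
    obtain ⟨N, hN⟩ := hc ε hε
    refine ⟨N, fun n hn s => ?_⟩
    have hlim : Filter.Tendsto (fun m => ∑ i ∈ s, v p (u n i - u m i)) Filter.atTop
        (nhds (∑ i ∈ s, v p (u n i - x i))) := by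
      apply tendsto_finsetSum
      intro i _
      have : Filter.Tendsto (fun m => ‖u n i - u m i‖) Filter.atTop (nhds ‖u n i - x i‖) :=
        ((tendsto_const_nhds).sub (hx i)).norm
      exact this.rpow_const (Or.inr hp.le)
    refine le_of_tendsto hlim ?_
    filter_upwards [Filter.eventually_ge_atTop N] with m hm
    have h1 : ∑ i ∈ s, v p ((u n - u m) i) ≤ T p (u n - u m) :=
      (hsub n m).sum_le_tsum s fun _ _ => v_nonneg _
    exact h1.trans (hN n hn m hm).le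
  have hdiff : ∃ N, ∀ n ≥ N, Sm p (u n - x) := by
    obtain ⟨N, hN⟩ := key 1 one_pos
    exact ⟨N, fun n hn => summable_of_sum_le (fun _ => v_nonneg _) (hN n hn)⟩
  obtain ⟨N0, hN0⟩ := hdiff
  refine ⟨x, ?_, ?_⟩
  · have h1 := (hu N0).add hp hp1 (hN0 N0 le_rfl).neg
    have h2 : u N0 + -(u N0 - x) = x := by abel
    rwa [h2] at h1
  · intro ε hε
    obtain ⟨N, hN⟩ := key (ε / 2) (half_pos hε)
    refine ⟨N, fun n hn => ?_⟩
    have : T p (u n - x) ≤ ε / 2 := Real.tsum_le_of_sum_le (fun _ => v_nonneg _) (hN n hn)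
    linarith

lemma complete_G (hp : 0 < p) (hp1 : p ≤ 1) (u : ℕ → ℕ → 𝕜) (hu : ∀ n, Sm p (u n))
    (hc : ∀ ε > 0, ∃ N, ∀ m ≥ N, ∀ n ≥ N, G p (u m - u n) < ε) :
    ∃ x : ℕ → 𝕜, Sm p x ∧ ∀ ε > 0, ∃ N, ∀ n ≥ N, G p (u n - x) < ε := by
  obtain ⟨x, hx, h⟩ := complete_T hp hp1 u hu (fun ε hε => by
    obtain ⟨N, hN⟩ := hc ε hε
    exact ⟨N, fun m hm n hn => (T_le_G _).trans_lt (hN m hm n hn)⟩)
  refine ⟨x, hx, fun ε hε => ?_⟩
  obtain ⟨N, hN⟩ := h (ε / 2) (half_pos hε)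
  refine ⟨N, fun n hn => ?_⟩
  have hs : Sm p (u n - x) := by
    rw [sub_eq_add_neg]; exact (hu n).add hp hp1 hx.neg
  have := G_le_T hp hp1 hs
  have := hN n hn
  linarith

/-- Restriction of `x` to the complement of `A`. -/
noncomputable def off (A : Finset ℕ) (x : ℕ → 𝕜) : ℕ → 𝕜 := fun i => if i ∈ A then 0 else x i

lemma off_mem {A : Finset ℕ} {x : ℕ → 𝕜} {i : ℕ} (h : i ∈ A) : off A x i = 0 := by
  simp [off, h]

lemma off_not_mem {A : Finset ℕ} {x : ℕ → 𝕜} {i : ℕ} (h : i ∉ A) : off A x i = x i := by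
  simp [off, h]

lemma v_off_le (hp : 0 < p) (A : Finset ℕ) (x : ℕ → 𝕜) (i : ℕ) : v p (off A x i) ≤ v p (x i) := by
  by_cases h : i ∈ A
  · rw [off_mem h, v_zero hp]; exact v_nonneg _
  · rw [off_not_mem h]

lemma Sm.off (hp : 0 < p) {x : ℕ → 𝕜} (hx : Sm p x) (A : Finset ℕ) : Sm p (off A x) :=
  Summable.of_nonneg_of_le (fun _ => v_nonneg _) (v_off_le hp A x) hx

lemma T_off (hp : 0 < p) {x : ℕ → 𝕜} (hx : Sm p x) (A : Finset ℕ) :
    T p (AG.off A x) = T p x - ∑ i ∈ A, v p (x i) := by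
  have h1 : (fun i => v p (x i)) = fun i => v p (AG.off A x i) + (if i ∈ A then v p (x i) else 0) := by
    funext i
    by_cases h : i ∈ A
    · rw [off_mem h, v_zero hp]; simp [h]
    · rw [off_not_mem h]; simp [h]
  have hs : Summable fun i => (if i ∈ A then v p (x i) else 0) :=
    summable_of_ne_finset_zero (s := A) (fun i hi => by simp [hi])
  have h2 : ∑' i, (if i ∈ A then v p (x i) else 0) = ∑ i ∈ A, v p (x i) := by
    rw [tsum_eq_sum (s := A) (fun i hi => by simp [hi])]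
    exact Finset.sum_congr rfl fun i hi => by simp [hi]
  have h3 : T p x = T p (AG.off A x) + ∑ i ∈ A, v p (x i) := by
    unfold T
    rw [← h2, ← (hx.off hp A).tsum_add hs]
    exact congrArg tsum h1
  linarith

/-- Main inequality: the unit vector basis is 1-almost-greedy for `G`. -/
lemma G_greedy (hp : 0 < p) (hp1 : p ≤ 1) {x : ℕ → 𝕜} (hx : Sm p x) (A B : Finset ℕ)
    (hA : ∀ n ∈ A, ∀ k, k ∉ A → ‖x k‖ ≤ ‖x n‖) (hB : B.card ≤ A.card) :
    G p (off A x) ≤ G p (off B x) := by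
  by_cases hAB : A ⊆ B
  · rw [Finset.eq_of_subset_of_card_le hAB hB]
  obtain ⟨j, hjA, hjB⟩ := Finset.not_subset.1 hAB
  set y := off A x with hy
  set w := off B x with hw
  have hys : Sm p y := hx.off hp A
  have hws : Sm p w := hx.off hp B
  -- every coefficient in `A` dominates `M y`
  have hMA : ∀ i ∈ A, M p y ≤ v p (x i) := by
    intro i hi
    apply M_le
    intro k
    by_cases hk : k ∈ A
    · rw [hy, off_mem hk, v_zero hp]; exact v_nonneg _
    · rw [hy, off_not_mem hk]; exact v_mono hp (hA i hi k hk)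
  have hMB : ∀ i, i ∉ A → v p (x i) ≤ M p y := by
    intro i hi
    have := le_M hys i
    rwa [hy, off_not_mem hi] at this
  have hMw : M p y ≤ M p w := by
    have h1 := le_M hws j
    rw [hw, off_not_mem hjB] at h1
    exact (hMA j hjA).trans h1
  have hM0 : 0 ≤ M p y := M_nonneg hys
  have hT : T p y ≤ T p w := by
    rw [hy, hw, T_off hp hx, T_off hp hx]
    have h1 : ∑ i ∈ B, v p (x i) ≤ ∑ i ∈ A, v p (x i) := by
      rw [← Finset.sum_inter_add_sum_sdiff B A, ← Finset.sum_inter_add_sum_sdiff A B,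
        Finset.inter_comm B A]
      have h2 : ∑ i ∈ B \ A, v p (x i) ≤ (B \ A).card • M p y :=
        Finset.sum_le_card_nsmul _ _ _ fun i hi => hMB i (Finset.mem_sdiff.1 hi).2
      have h3 : (A \ B).card • M p y ≤ ∑ i ∈ A \ B, v p (x i) :=
        Finset.card_nsmul_le_sum _ _ _ fun i hi => hMA i (Finset.mem_sdiff.1 hi).1
      have h4 : (B \ A).card ≤ (A \ B).card := by
        have e1 := Finset.card_sdiff_add_card_inter B A
        have e2 := Finset.card_sdiff_add_card_inter A B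
        rw [Finset.inter_comm B A] at e1
        omega
      have h5 : (B \ A).card • M p y ≤ (A \ B).card • M p y := by
        rw [nsmul_eq_mul, nsmul_eq_mul]
        exact mul_le_mul_of_nonneg_right (by exact_mod_cast h4) hM0
      linarith
    linarith
  -- `G1 y ≤ T y + M y`
  have hG1y : G1 p y ≤ T p y + M p y := by
    unfold G1
    have := v_sub hp hp1 (y 0) (y 1)
    linarith
  have hG2y : G2 p y ≤ T p y + M p y := by
    unfold G2
    have : max (v p (y 0)) (v p (y 1)) ≤ M p y := max_le (le_M hys 0) (le_M hys 1)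
    linarith
  by_cases h01 : 0 ∈ B ∨ 1 ∈ B
  · -- then `G1 w = T w + M w`
    have hG1w : G1 p w = T p w + M p w := by
      unfold G1
      rcases h01 with h | h
      · have h0 : w 0 = 0 := off_mem h
        have e0 : v p (w 0) = 0 := by rw [h0, v_zero hp]
        have e1 : v p (w 0 - w 1) = v p (w 1) := by rw [h0, zero_sub, v_neg]
        linarith
      · have h0 : w 1 = 0 := off_mem h
        have e0 : v p (w 1) = 0 := by rw [h0, v_zero hp]
        have e1 : v p (w 0 - w 1) = v p (w 0) := by rw [h0, sub_zero]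
        linarith
    refine le_trans ?_ (le_max_left _ _)
    rw [hG1w]
    refine max_le ?_ ?_ <;> linarith
  · push Not at h01
    obtain ⟨h0B, h1B⟩ := h01
    have hw0 : w 0 = x 0 := off_not_mem h0B
    have hw1 : w 1 = x 1 := off_not_mem h1B
    have hG2 : G2 p y ≤ G2 p w := by
      unfold G2
      have h1 : max (v p (y 0)) (v p (y 1)) ≤ max (v p (w 0)) (v p (w 1)) := by
        rw [hw0, hw1]
        exact max_le_max (v_off_le hp A x 0) (v_off_le hp A x 1)
      linarith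
    by_cases h01A : 0 ∈ A ∨ 1 ∈ A
    · -- compare `T y + M y` with `G2 w`
      have hmax : M p y ≤ max (v p (w 0)) (v p (w 1)) := by
        rw [hw0, hw1]
        rcases h01A with h | h
        · exact (hMA 0 h).trans (le_max_left _ _)
        · exact (hMA 1 h).trans (le_max_right _ _)
      have h2 : T p y + M p y ≤ G2 p w := by
        unfold G2; linarith
      refine le_trans ?_ (le_max_right _ _)
      exact max_le (hG1y.trans h2) hG2
    · push Not at h01A
      obtain ⟨h0A, h1A⟩ := h01A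
      have hy0 : y 0 = x 0 := off_not_mem h0A
      have hy1 : y 1 = x 1 := off_not_mem h1A
      refine max_le ?_ (hG2.trans (le_max_right _ _))
      refine le_trans ?_ (le_max_left _ _)
      unfold G1
      rw [hy0, hy1, hw0, hw1]
      linarith

end Pool.Agent.TH352.AG
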