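import Mathlib
import Pool.Agent.TH352.AGCore

/-!
The space of (p-)summable sequences with the gauge `G`, and its p = 1 normed-space structure.
-/

open scoped BigOperators

namespace Pool.Agent.TH352.AG

variable (𝕜 : Type) [RCLike 𝕜]

/-- The submodule of p-summable sequences. -/
def seqSub (p : ℝ) (hp : 0 < p) (hp1 : p ≤ 1) : Submodule 𝕜 (ℕ → 𝕜) where
  carrier := {x | Sm p x}
  add_mem' := fun hx hy => Sm.add hp hp1 hx hy
  zero_mem' := Sm.zero hp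
  smul_mem' := fun a _ hx => Sm.smul a hx

variable {𝕜}

/-- Finitely supported sequences are p-summable. -/
lemma Sm.of_finset {p : ℝ} (hp : 0 < p) (s : Finset ℕ) (x : ℕ → 𝕜) (h : ∀ i, i ∉ s → x i = 0) :
    Sm p x :=
  summable_of_ne_finset_zero (s := s) fun i hi => by rw [h i hi, v_zero hp]

/-- The unit vectors. -/
def unit (p : ℝ) (hp : 0 < p) (hp1 : p ≤ 1) (n : ℕ) : seqSub 𝕜 p hp hp1 :=
  ⟨Pi.single n 1, Sm.of_finset hp {n} _ fun i hi => by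
    rw [Finset.mem_singleton] at hi
    exact Pi.single_eq_of_ne hi 1⟩

lemma coe_sum_unit {p : ℝ} {hp : 0 < p} {hp1 : p ≤ 1} (A : Finset ℕ) (a : ℕ → 𝕜) :
    ((∑ n ∈ A, a n • unit p hp hp1 n : seqSub 𝕜 p hp hp1) : ℕ → 𝕜) =
      fun i => if i ∈ A then a i else 0 := by
  funext i
  have h1 : ((∑ n ∈ A, a n • unit p hp hp1 n : seqSub 𝕜 p hp hp1) : ℕ → 𝕜) =
      ∑ n ∈ A, a n • (Pi.single n 1 : ℕ → 𝕜) := by
    rw [Submodule.coe_sum]
    rfl
  rw [h1, Finset.sum_apply]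
  simp only [Pi.smul_apply, smul_eq_mul, Pi.single_apply, mul_ite, mul_one, mul_zero]
  rw [Finset.sum_ite_eq]

lemma coe_sub_sum {p : ℝ} {hp : 0 < p} {hp1 : p ≤ 1} (A : Finset ℕ) (x : seqSub 𝕜 p hp hp1) :
    ((x - ∑ n ∈ A, (x : ℕ → 𝕜) n • unit p hp hp1 n : seqSub 𝕜 p hp hp1) : ℕ → 𝕜) =
      off A (x : ℕ → 𝕜) := by
  rw [Submodule.coe_sub, coe_sum_unit]
  funext i
  by_cases h : i ∈ A
  · simp [off, h]
  · simp [off, h]

/-- `T` of the tails tends to zero. -/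
lemma exists_T_off_lt {p : ℝ} (hp : 0 < p) {x : ℕ → 𝕜} (hx : Sm p x) {ε : ℝ} (hε : 0 < ε) :
    ∃ n, T p (off (Finset.range n) x) < ε := by
  have h1 : Filter.Tendsto (fun n => ∑ i ∈ Finset.range n, v p (x i)) Filter.atTop
      (nhds (T p x)) := hx.hasSum.tendsto_sum_nat
  have h2 : Filter.Tendsto (fun n => T p x - ∑ i ∈ Finset.range n, v p (x i)) Filter.atTop
      (nhds (T p x - T p x)) := tendsto_const_nhds.sub h1
  rw [sub_self] at h2
  obtain ⟨n, hn⟩ := (h2.eventually (gt_mem_nhds hε)).exists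
  exact ⟨n, by rw [T_off hp hx]; exact hn⟩

lemma exists_G_off_lt {p : ℝ} (hp : 0 < p) (hp1 : p ≤ 1) {x : ℕ → 𝕜} (hx : Sm p x) {ε : ℝ}
    (hε : 0 < ε) : ∃ n, G p (off (Finset.range n) x) < ε := by
  obtain ⟨n, hn⟩ := exists_T_off_lt hp hx (half_pos hε)
  exact ⟨n, by have := G_le_T hp hp1 (hx.off hp (Finset.range n)); linarith⟩

/-- For a greedy set `A` of `x` and `|B| ≤ |A|`: `G (x - P_A x) ≤ G (x - P_B x)`. -/
lemma G_greedy' {p : ℝ} {hp : 0 < p} {hp1 : p ≤ 1} (x : seqSub 𝕜 p hp hp1) (A B : Finset ℕ)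
    (hA : ∀ n ∈ A, ∀ k, k ∉ A → ‖(x : ℕ → 𝕜) k‖ ≤ ‖(x : ℕ → 𝕜) n‖) (hB : B.card ≤ A.card) :
    G p ((x - ∑ n ∈ A, (x : ℕ → 𝕜) n • unit p hp hp1 n : seqSub 𝕜 p hp hp1) : ℕ → 𝕜) ≤
      G p ((x - ∑ n ∈ B, (x : ℕ → 𝕜) n • unit p hp hp1 n : seqSub 𝕜 p hp hp1) : ℕ → 𝕜) := by
  rw [coe_sub_sum, coe_sub_sum]
  exact G_greedy hp hp1 x.2 A B hA hB

/-- The test vector `e₀ + β e₁ + e₂`. -/
def tv (β : 𝕜) : ℕ → 𝕜 := fun i => if i = 0 then 1 else if i = 1 then β else if i = 2 then 1 else 0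

lemma tv_zero_of {β : 𝕜} (i : ℕ) (h : i ∉ Finset.range 3) : tv β i = 0 := by
  rw [Finset.mem_range, not_lt] at h
  have h0 : i ≠ 0 := by omega
  have h1 : i ≠ 1 := by omega
  have h2 : i ≠ 2 := by omega
  simp [tv, h0, h1, h2]

/-- The test vector as an element of the space. -/
def tvs (p : ℝ) (hp : 0 < p) (hp1 : p ≤ 1) (β : 𝕜) : seqSub 𝕜 p hp hp1 :=
  ⟨tv β, Sm.of_finset hp (Finset.range 3) _ tv_zero_of⟩

lemma T_fin {p : ℝ} (hp : 0 < p) {x : ℕ → 𝕜} (h : ∀ i, i ∉ Finset.range 3 → x i = 0) :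
    T p x = v p (x 0) + v p (x 1) + v p (x 2) := by
  unfold T
  rw [tsum_eq_sum (s := Finset.range 3) fun i hi => by rw [h i hi, v_zero hp]]
  simp [Finset.sum_range_succ]

lemma v_one (p : ℝ) : v p (1 : 𝕜) = 1 := by simp [v]

/-- Lower bound: removing a multiple of `e₂` from the test vector leaves `G ≥ 2 + v β`. -/
lemma lower {p : ℝ} {hp : 0 < p} {hp1 : p ≤ 1} (β : 𝕜) (hβ : v p β ≤ 1) (a : ℕ → 𝕜) :
    2 + v p β ≤
      G p ((tvs p hp hp1 β - ∑ n ∈ ({2} : Finset ℕ), a n • unit p hp hp1 n :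
        seqSub 𝕜 p hp hp1) : ℕ → 𝕜) := by
  rw [Submodule.coe_sub, coe_sum_unit]
  refine le_trans ?_ (le_max_right _ _)
  unfold G2
  have h0 : (((tvs p hp hp1 β : seqSub 𝕜 p hp hp1) : ℕ → 𝕜) -
      fun i => if i ∈ ({2} : Finset ℕ) then a i else 0) 0 = 1 := by
    simp [tvs, tv]
  have h1 : (((tvs p hp hp1 β : seqSub 𝕜 p hp hp1) : ℕ → 𝕜) -
      fun i => if i ∈ ({2} : Finset ℕ) then a i else 0) 1 = β := by
    simp [tvs, tv]
  rw [T_fin hp (x := ((tvs p hp hp1 β : seqSub 𝕜 p hp hp1) : ℕ → 𝕜) -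
      fun i => if i ∈ ({2} : Finset ℕ) then a i else 0), h0, h1, v_one, max_eq_left hβ]
  · have := v_nonneg (p := p) ((((tvs p hp hp1 β : seqSub 𝕜 p hp hp1) : ℕ → 𝕜) -
      fun i => if i ∈ ({2} : Finset ℕ) then a i else 0) 2)
    linarith
  · intro i hi
    have h3 : i ≠ 2 := by
      rintro rfl
      exact hi (by simp)
    have h4 := tv_zero_of (β := β) i hi
    simp [tvs, h4, h3]

/-- Upper bound: replacing the coefficient of `e₀` by `β` gives `G ≤ 2`. -/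
lemma upper {p : ℝ} {hp : 0 < p} {hp1 : p ≤ 1} (β : 𝕜) (hβ : v p β ≤ 1 / 4) :
    G p ((tvs p hp hp1 β - ∑ n ∈ ({0} : Finset ℕ), (1 - β) • unit p hp hp1 n :
        seqSub 𝕜 p hp hp1) : ℕ → 𝕜) ≤ 2 := by
  have hcoe := coe_sum_unit (hp := hp) (hp1 := hp1) ({0} : Finset ℕ) (fun _ => 1 - β)
  rw [Submodule.coe_sub, hcoe]
  set z : ℕ → 𝕜 := (((tvs p hp hp1 β : seqSub 𝕜 p hp hp1) : ℕ → 𝕜) -
      fun i => if i ∈ ({0} : Finset ℕ) then (1 - β) else 0) with hz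
  have h0 : z 0 = β := by
    simp [hz, tvs, tv]
  have h1 : z 1 = β := by
    simp [hz, tvs, tv]
  have h2 : z 2 = 1 := by
    simp [hz, tvs, tv]
  have h3 : ∀ i, i ∉ Finset.range 3 → z i = 0 := by
    intro i hi
    have h3 : i ≠ 0 := by
      rintro rfl
      exact hi (by simp)
    have h4 := tv_zero_of (β := β) i hi
    simp [hz, tvs, h4, h3]
  have hT : T p z = 2 * v p β + 1 := by
    rw [T_fin hp h3, h0, h1, h2, v_one]; ring
  have hM : M p z ≤ 1 := by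
    apply M_le
    intro i
    by_cases hi : i ∈ Finset.range 3
    · rw [Finset.mem_range] at hi
      interval_cases i
      · rw [h0]; linarith
      · rw [h1]; linarith
      · rw [h2, v_one]
    · rw [h3 i hi, v_zero hp]; exact zero_le_one
  refine max_le ?_ ?_
  · unfold G1
    rw [hT, h0, h1, sub_self, v_zero hp]
    linarith
  · unfold G2
    rw [hT, h0, h1, max_self]
    linarith

/-- The test vector has `{2}` as a greedy set. -/
lemma greedy_tv {p : ℝ} {hp : 0 < p} {hp1 : p ≤ 1} (β : 𝕜) (hβ : ‖β‖ ≤ 1) :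
    ∀ n ∈ ({2} : Finset ℕ), ∀ k, k ∉ ({2} : Finset ℕ) →
      ‖((tvs p hp hp1 β : seqSub 𝕜 p hp hp1) : ℕ → 𝕜) k‖ ≤
        ‖((tvs p hp hp1 β : seqSub 𝕜 p hp hp1) : ℕ → 𝕜) n‖ := by
  intro n hn k hk
  rw [Finset.mem_singleton] at hn hk
  subst hn
  have h2 : ((tvs p hp hp1 β : seqSub 𝕜 p hp hp1) : ℕ → 𝕜) 2 = 1 := by simp [tvs, tv]
  rw [h2, norm_one]
  by_cases h0 : k = 0
  · subst h0; simp [tvs, tv]
  by_cases h1 : k = 1
  · subst h1
    have : ((tvs p hp hp1 β : seqSub 𝕜 p hp hp1) : ℕ → 𝕜) 1 = β := by simp [tvs, tv]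
    rw [this]; exact hβ
  · simp [tvs, tv, h0, h1, hk]

variable (𝕜)

/-- The Banach space of summable sequences, to carry the norm `G 1`. -/
def X1 : Type := seqSub 𝕜 1 one_pos le_rfl

noncomputable instance : AddCommGroup (X1 𝕜) :=
  inferInstanceAs (AddCommGroup (seqSub 𝕜 1 one_pos le_rfl))

noncomputable instance : Module 𝕜 (X1 𝕜) :=
  inferInstanceAs (Module 𝕜 (seqSub 𝕜 1 one_pos le_rfl))

/-- underlying sequence -/
def X1.toFun (x : X1 𝕜) : ℕ → 𝕜 := (show seqSub 𝕜 1 one_pos le_rfl from x).1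

/-- The group norm. -/
noncomputable def X1.gn : AddGroupNorm (X1 𝕜) where
  toFun x := G 1 (X1.toFun 𝕜 x)
  map_zero' := G_zero one_pos le_rfl
  add_le' := fun x y => G_add one_pos le_rfl x.2 y.2
  neg' := fun x => G_neg (X1.toFun 𝕜 x)
  eq_zero_of_map_eq_zero' := fun x h => Subtype.ext (eq_zero_of_G one_pos x.2 h)

noncomputable instance : NormedAddCommGroup (X1 𝕜) := (X1.gn 𝕜).toNormedAddCommGroup

lemma X1.norm_def (x : X1 𝕜) : ‖x‖ = G 1 (X1.toFun 𝕜 x) := rfl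

noncomputable instance : NormedSpace 𝕜 (X1 𝕜) where
  norm_smul_le a x := by
    rw [X1.norm_def, X1.norm_def]
    have h : X1.toFun 𝕜 (a • x) = a • X1.toFun 𝕜 x := rfl
    rw [h, G_smul]
    have : v 1 a = ‖a‖ := by simp [v]
    rw [this]

instance : CompleteSpace (X1 𝕜) := by
  apply Metric.complete_of_cauchySeq_tendsto
  intro u hu
  obtain ⟨x, hx, h⟩ := complete_G (𝕜 := 𝕜) one_pos le_rfl (fun n => X1.toFun 𝕜 (u n))
    (fun n => (u n).2) (fun ε hε => by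
      obtain ⟨N, hN⟩ := Metric.cauchySeq_iff.1 hu ε hε
      refine ⟨N, fun m hm n hn => ?_⟩
      have := hN m hm n hn
      rw [dist_eq_norm] at this
      exact this)
  let x' : seqSub 𝕜 1 one_pos le_rfl := ⟨x, hx⟩
  let x1 : X1 𝕜 := x'
  refine ⟨x1, Metric.tendsto_atTop.2 fun ε hε => ?_⟩
  obtain ⟨N, hN⟩ := h ε hε
  refine ⟨N, fun n hn => ?_⟩
  rw [dist_eq_norm]
  exact hN n hn

/-- coordinate functionals -/
noncomputable def X1.coord (n : ℕ) : X1 𝕜 →L[𝕜] 𝕜 :=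
  LinearMap.mkContinuous
    { toFun := fun x => X1.toFun 𝕜 x n
      map_add' := fun _ _ => rfl
      map_smul' := fun _ _ => rfl } 1 (by
    intro x
    have h1 : v 1 (X1.toFun 𝕜 x n) ≤ T 1 (X1.toFun 𝕜 x) := le_T x.2 n
    have h2 : v 1 (X1.toFun 𝕜 x n) = ‖X1.toFun 𝕜 x n‖ := by simp [v]
    have h3 : ‖X1.toFun 𝕜 x n‖ ≤ 1 * ‖x‖ := by
      rw [one_mul, X1.norm_def, ← h2]
      exact h1.trans (T_le_G _)
    exact h3)

/-- unit vectors -/
noncomputable def X1.e (n : ℕ) : X1 𝕜 := unit 1 one_pos le_rfl n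

end Pool.Agent.TH352.AG
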